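import Pool.Agent.V8H87.EB.Defs

/-!
# Induced characters and abelian normal subgroups
-/

set_option autoImplicit false

open scoped Classical

namespace Pool.Agent.V8H87.EB.AN

open Finset

section Orth

variable {G : Type} [Group G] [Finite G] (E : Type) [Field E] [CharZero E]

lemma finite_hom [IsAlgClosed E] (hc : ∀ a b : G, a * b = b * a) : Finite (G →* Eˣ) := by
  letI : CommGroup G := { (inferInstance : Group G) with mul_comm := hc }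
  haveI : NeZero ((Monoid.exponent G : ℕ) : E) :=
    ⟨Nat.cast_ne_zero.2 Monoid.exponent_ne_zero_of_finite⟩
  exact Finite.of_equiv _ (CommGroup.monoidHom_mulEquiv_of_hasEnoughRootsOfUnity G E).some.symm.toEquiv

lemma orth [IsAlgClosed E] (hc : ∀ a b : G, a * b = b * a) [Fintype (G →* Eˣ)] (z : G) :
    ∑ ψ : G →* Eˣ, (ψ z : E) = if z = 1 then (Nat.card G : E) else 0 := by
  letI : CommGroup G := { (inferInstance : Group G) with mul_comm := hc }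
  haveI : NeZero ((Monoid.exponent G : ℕ) : E) :=
    ⟨Nat.cast_ne_zero.2 Monoid.exponent_ne_zero_of_finite⟩
  by_cases hz : z = 1
  · rw [if_pos hz, hz]
    simp only [map_one, Units.val_one, Finset.sum_const, nsmul_eq_mul, mul_one,
      Finset.card_univ]
    rw [← Nat.card_eq_fintype_card]
    congr 1
    exact CommGroup.card_monoidHom_of_hasEnoughRootsOfUnity G E
  · rw [if_neg hz]
    obtain ⟨φ, hφ⟩ := CommGroup.exists_apply_ne_one_of_hasEnoughRootsOfUnity G E hz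
    have h1 := Equiv.sum_comp (Equiv.mulLeft φ) (fun ψ : G →* Eˣ => (ψ z : E))
    have h2 : ∀ ψ : G →* Eˣ, ((Equiv.mulLeft φ ψ) z : E) = (φ z : E) * (ψ z : E) := by
      intro ψ
      rfl
    rw [Finset.sum_congr rfl fun ψ _ => h2 ψ, ← Finset.mul_sum] at h1
    have h3 : ((φ z : E) - 1) * ∑ ψ : G →* Eˣ, (ψ z : E) = 0 := by
      rw [sub_mul, one_mul, h1, sub_self]
    refine (mul_eq_zero.1 h3).resolve_left ?_
    intro h4
    exact hφ (Units.ext (sub_eq_zero.1 h4))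

omit [CharZero E] in
/-- sums of characters -/
lemma sum_char [Fintype G] (η : G →* Eˣ) :
    ∑ a : G, (η a : E) = if η = 1 then (Nat.card G : E) else 0 := by
  have h := sum_hom_units ((Units.coeHom E).comp η)
  have h1 : ((Units.coeHom E).comp η = 1) ↔ η = 1 := by
    constructor
    · intro h
      ext u
      have := DFunLike.congr_fun h u
      simpa using this
    · rintro rfl
      rfl
  rw [Nat.card_eq_fintype_card]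
  split_ifs with h2
  · rw [if_pos (h1.2 h2)] at h
    simpa using h
  · rw [if_neg (fun h3 => h2 (h1.1 h3))] at h
    simpa using h

end Orth

section

variable {Γ : Type} [Group Γ] {E : Type} [Field E] (A : Subgroup Γ) [hA : A.Normal]

/-- conjugation of characters -/
def cj (u : Γ) (ψ : A →* Eˣ) : A →* Eˣ where
  toFun a := ψ ⟨u⁻¹ * a * u, by simpa using hA.conj_mem a a.2 u⁻¹⟩
  map_one' := by
    have : (⟨u⁻¹ * ((1 : A) : Γ) * u, by simpa using hA.conj_mem (1 : A) (1 : A).2 u⁻¹⟩ : A) = 1 :=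
      Subtype.ext (by simp)
    rw [this, map_one]
  map_mul' a b := by
    rw [← map_mul]
    congr 1
    apply Subtype.ext
    simp [mul_assoc]

lemma cj_apply (u : Γ) (ψ : A →* Eˣ) (a : Γ) (ha : a ∈ A) (h : u⁻¹ * a * u ∈ A) :
    cj A u ψ ⟨a, ha⟩ = ψ ⟨u⁻¹ * a * u, h⟩ := rfl

lemma cj_one (ψ : A →* Eˣ) : cj A 1 ψ = ψ := by
  ext a
  change ((ψ ⟨1⁻¹ * (a : Γ) * 1, _⟩ : Eˣ) : E) = _
  congr 2
  exact Subtype.ext (by simp)

lemma cj_mul (u v : Γ) (ψ : A →* Eˣ) : cj A (u * v) ψ = cj A u (cj A v ψ) := by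
  ext a
  change ((ψ ⟨(u * v)⁻¹ * (a : Γ) * (u * v), _⟩ : Eˣ) : E) =
    ((ψ ⟨v⁻¹ * (u⁻¹ * (a : Γ) * u) * v, _⟩ : Eˣ) : E)
  congr 2
  exact Subtype.ext (by simp [mul_assoc])

lemma cj_self (hAc : ∀ a ∈ A, ∀ b ∈ A, a * b = b * a) (t : Γ) (ht : t ∈ A) (ψ : A →* Eˣ) :
    cj A t ψ = ψ := by
  ext a
  change ((ψ ⟨t⁻¹ * (a : Γ) * t, _⟩ : Eˣ) : E) = _
  congr 2
  apply Subtype.ext
  change t⁻¹ * (a : Γ) * t = a
  rw [mul_assoc, hAc a a.2 t ht, inv_mul_cancel_left]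

variable (U : Subgroup Γ) (χ : U →* Eˣ)

/-- the characters of `A` which agree with `χ` on `U ∩ A` -/
def XX : Set (A →* Eˣ) :=
  {ψ | ∀ (t : Γ) (ht : t ∈ A) (hu : t ∈ U), ψ ⟨t, ht⟩ = χ ⟨t, hu⟩}

/-- the stabiliser of `ψ` in `U` -/
def St (ψ : A →* Eˣ) : Subgroup Γ where
  carrier := {u | u ∈ U ∧ cj A u ψ = ψ}
  one_mem' := ⟨one_mem U, cj_one A ψ⟩
  mul_mem' := by
    rintro u v ⟨hu, hu'⟩ ⟨hv, hv'⟩
    exact ⟨mul_mem hu hv, by rw [cj_mul, hv', hu']⟩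
  inv_mem' := by
    rintro u ⟨hu, hu'⟩
    refine ⟨inv_mem hu, ?_⟩
    conv_lhs => rw [← hu']
    rw [← cj_mul, inv_mul_cancel, cj_one]

lemma XX_cj {ψ : A →* Eˣ} (hψ : ψ ∈ XX A U χ) {u : Γ} (hu : u ∈ U) : cj A u ψ ∈ XX A U χ := by
  intro t ht htu
  have h1 : u⁻¹ * t * u ∈ A := by simpa using hA.conj_mem t ht u⁻¹
  have h2 : u⁻¹ * t * u ∈ U := mul_mem (mul_mem (inv_mem hu) htu) hu
  rw [cj_apply A u ψ t ht h1, hψ _ h1 h2]
  have h3 : (⟨u⁻¹ * t * u, h2⟩ : U) = (⟨u, hu⟩ : U)⁻¹ * ⟨t, htu⟩ * ⟨u, hu⟩ := rfl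
  rw [h3, map_mul, map_mul, map_inv, mul_comm, mul_inv_cancel_left]

lemma mem_W {ψ : A →* Eˣ} (y : Γ) :
    y ∈ St A U ψ ⊔ A ↔ ∃ u ∈ U, cj A u ψ = ψ ∧ ∃ b ∈ A, u * b = y := by
  rw [Subgroup.mem_sup_of_normal_right]
  constructor
  · rintro ⟨u, ⟨hu, hu'⟩, b, hb, rfl⟩
    exact ⟨u, hu, hu', b, hb, rfl⟩
  · rintro ⟨u, hu, hu', b, hb, rfl⟩
    exact ⟨u, ⟨hu, hu'⟩, b, hb, rfl⟩

variable {A U χ}

lemma wd {ψ : A →* Eˣ} (hψ : ψ ∈ XX A U χ) {u v b c : Γ} (hu : u ∈ U) (hv : v ∈ U) (hb : b ∈ A)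
    (hc : c ∈ A) (h : u * b = v * c) :
    χ ⟨u, hu⟩ * ψ ⟨b, hb⟩ = χ ⟨v, hv⟩ * ψ ⟨c, hc⟩ := by
  have h1 : v⁻¹ * u = c * b⁻¹ := by
    have : v⁻¹ * (u * b) * b⁻¹ = v⁻¹ * (v * c) * b⁻¹ := by rw [h]
    simpa [mul_assoc] using this
  have hU : v⁻¹ * u ∈ U := mul_mem (inv_mem hv) hu
  have hA' : c * b⁻¹ ∈ A := mul_mem hc (inv_mem hb)
  have h2 := hψ (v⁻¹ * u) (h1 ▸ hA') hU
  have h3 : (⟨v⁻¹ * u, hU⟩ : U) = (⟨v, hv⟩ : U)⁻¹ * ⟨u, hu⟩ := rfl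
  have h4 : (⟨v⁻¹ * u, h1 ▸ hA'⟩ : A) = (⟨c, hc⟩ : A) * (⟨b, hb⟩ : A)⁻¹ := Subtype.ext h1
  rw [h3, h4, map_mul, map_mul, map_inv, map_inv] at h2
  rw [mul_inv_eq_iff_eq_mul] at h2
  rw [h2, mul_comm (χ ⟨v, hv⟩), mul_comm (χ ⟨v, hv⟩)⁻¹, mul_right_comm, inv_mul_cancel_right,
    mul_comm]

/-- the character `χ ψ` of `St ψ ⊔ A` -/
noncomputable def ph {ψ : A →* Eˣ} (hψ : ψ ∈ XX A U χ) : (St A U ψ ⊔ A : Subgroup Γ) →* Eˣ where
  toFun y := χ ⟨((mem_W A U (y : Γ)).1 y.2).choose, ((mem_W A U (y : Γ)).1 y.2).choose_spec.1⟩ *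
    ψ ⟨((mem_W A U (y : Γ)).1 y.2).choose_spec.2.2.choose,
      ((mem_W A U (y : Γ)).1 y.2).choose_spec.2.2.choose_spec.1⟩
  map_one' := by
    set h := (mem_W A U (ψ := ψ) ((1 : (St A U ψ ⊔ A : Subgroup Γ)) : Γ)).1 (one_mem _)
    rw [wd hψ h.choose_spec.1 (one_mem U) h.choose_spec.2.2.choose_spec.1 (one_mem A)
      (by rw [h.choose_spec.2.2.choose_spec.2]; simp)]
    have h1 : (⟨1, one_mem U⟩ : U) = 1 := rfl
    have h2 : (⟨1, one_mem A⟩ : A) = 1 := rfl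
    rw [h1, h2, map_one, map_one, one_mul]
  map_mul' y z := by
    set hy := (mem_W A U (ψ := ψ) (y : Γ)).1 y.2
    set hz := (mem_W A U (ψ := ψ) (z : Γ)).1 z.2
    set hyz := (mem_W A U (ψ := ψ) ((y * z : (St A U ψ ⊔ A : Subgroup Γ)) : Γ)).1 (y * z).2
    obtain ⟨hu, hu', hb⟩ := hy.choose_spec
    set u := hy.choose
    obtain ⟨hb', hub⟩ := hb.choose_spec
    set b := hb.choose
    obtain ⟨hv, hv', hc⟩ := hz.choose_spec
    set v := hz.choose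
    obtain ⟨hc', hvc⟩ := hc.choose_spec
    set c := hc.choose
    have hbv : v⁻¹ * b * v ∈ A := by simpa using hA.conj_mem b hb' v⁻¹
    have e1 : (u * v) * ((v⁻¹ * b * v) * c) = ((y * z : (St A U ψ ⊔ A : Subgroup Γ)) : Γ) := by
      rw [Subgroup.coe_mul, ← hub, ← hvc]
      group
    rw [wd hψ hyz.choose_spec.1 (mul_mem hu hv) hyz.choose_spec.2.2.choose_spec.1
      (mul_mem hbv hc') (by rw [hyz.choose_spec.2.2.choose_spec.2, e1])]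
    have h1 : (⟨u * v, mul_mem hu hv⟩ : U) = ⟨u, hu⟩ * ⟨v, hv⟩ := rfl
    have h2 : (⟨v⁻¹ * b * v * c, mul_mem hbv hc'⟩ : A) = ⟨v⁻¹ * b * v, hbv⟩ * ⟨c, hc'⟩ := rfl
    have h3 : ψ ⟨v⁻¹ * b * v, hbv⟩ = ψ ⟨b, hb'⟩ := by
      rw [← cj_apply A v ψ b hb' hbv, hv']
    rw [h1, h2, map_mul, map_mul, h3]
    exact mul_mul_mul_comm _ _ _ _

lemma ph_apply {ψ : A →* Eˣ} (hψ : ψ ∈ XX A U χ) {u b : Γ} (hu : u ∈ U) (hb : b ∈ A)
    (h : u * b ∈ St A U ψ ⊔ A) : ph hψ ⟨u * b, h⟩ = χ ⟨u, hu⟩ * ψ ⟨b, hb⟩ :=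
  wd hψ _ hu _ hb ((mem_W A U (ψ := ψ) (u * b)).1 h).choose_spec.2.2.choose_spec.2

variable (hAc : ∀ a ∈ A, ∀ b ∈ A, a * b = b * a)

include hAc in
lemma mem_W_iff {ψ : A →* Eˣ} {u b : Γ} (hu : u ∈ U) (hb : b ∈ A) :
    u * b ∈ St A U ψ ⊔ A ↔ cj A u ψ = ψ := by
  rw [mem_W]
  constructor
  · rintro ⟨v, hv, hv', c, hc, h⟩
    have h1 : u = v * (c * b⁻¹) := by
      rw [← mul_assoc, h, mul_inv_cancel_right]
    rw [h1, cj_mul, cj_self A hAc _ (mul_mem hc (inv_mem hb)), hv']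
  · intro h
    exact ⟨u, hu, h, b, hb, rfl⟩

include hAc in
lemma ext_ph {ψ : A →* Eˣ} (hψ : ψ ∈ XX A U χ) {u b : Γ} (hu : u ∈ U) (hb : b ∈ A) :
    ext (St A U ψ ⊔ A) (ph hψ) (u * b) =
      if cj A u ψ = ψ then (χ ⟨u, hu⟩ : E) * (ψ ⟨b, hb⟩ : E) else 0 := by
  unfold ext
  by_cases h : cj A u ψ = ψ
  · rw [if_pos h, dif_pos ((mem_W_iff hAc hu hb).2 h), ph_apply hψ hu hb, Units.val_mul]
  · rw [if_neg h, dif_neg (fun h1 => h ((mem_W_iff hAc hu hb).1 h1))]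

lemma ext_ph_zero {ψ : A →* Eˣ} (hψ : ψ ∈ XX A U χ) {y : Γ} (hy : ¬ ∃ u ∈ U, ∃ b ∈ A, u * b = y) :
    ext (St A U ψ ⊔ A) (ph hψ) y = 0 := by
  unfold ext
  rw [dif_neg]
  intro h
  obtain ⟨u, hu, -, b, hb, e⟩ := (mem_W A U y).1 h
  exact hy ⟨u, hu, b, hb, e⟩

end

end Pool.Agent.V8H87.EB.AN
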