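import Pool.Agent.V8H87.EB.AN

/-!
# Induced characters and abelian normal subgroups: the decomposition
-/

set_option autoImplicit false

open scoped Classical

namespace Pool.Agent.V8H87.EB.AN

open Finset

variable {Γ : Type} [Group Γ] [Fintype Γ] {E : Type} [Field E] [CharZero E]
  {A : Subgroup Γ} [hA : A.Normal] {U : Subgroup Γ} {χ : U →* Eˣ}

section

variable [IsAlgClosed E] [Fintype (A →* Eˣ)] (hAc : ∀ a ∈ A, ∀ b ∈ A, a * b = b * a)

include hAc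

/-- Fourier expansion of `χ` on `U ∩ A` -/
lemma fourier (z : Γ) (hz : z ∈ A) :
    (Nat.card (U ⊓ A : Subgroup Γ) : E) * ∑ ψ : A →* Eˣ, (if ψ ∈ XX A U χ then (ψ ⟨z, hz⟩ : E) else 0) =
      (Nat.card A : E) * (if hu : z ∈ U then (χ ⟨z, hu⟩ : E) else 0) := by
  have hc : ∀ a b : A, a * b = b * a := fun a b => Subtype.ext (hAc a a.2 b b.2)
  -- the indicator of `X`
  have hX : ∀ ψ : A →* Eˣ, (Nat.card (U ⊓ A : Subgroup Γ) : E) *
      (if ψ ∈ XX A U χ then (ψ ⟨z, hz⟩ : E) else 0) =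
      ∑ t : (U ⊓ A : Subgroup Γ), ((χ ⟨t, t.2.1⟩)⁻¹ : Eˣ) * ((ψ ⟨t, t.2.2⟩ : E) * (ψ ⟨z, hz⟩ : E)) := by
    intro ψ
    let η : (U ⊓ A : Subgroup Γ) →* Eˣ :=
      { toFun := fun t => (χ ⟨t, t.2.1⟩)⁻¹ * ψ ⟨t, t.2.2⟩
        map_one' := by
          have h1 : (⟨((1 : (U ⊓ A : Subgroup Γ)) : Γ), (1 : (U ⊓ A : Subgroup Γ)).2.1⟩ : U) = 1 := rfl
          have h2 : (⟨((1 : (U ⊓ A : Subgroup Γ)) : Γ), (1 : (U ⊓ A : Subgroup Γ)).2.2⟩ : A) = 1 := rfl
          rw [h1, h2, map_one, map_one, inv_one, one_mul]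
        map_mul' := by
          intro s t
          have h1 : (⟨((s * t : (U ⊓ A : Subgroup Γ)) : Γ), (s * t).2.1⟩ : U) =
            ⟨s, s.2.1⟩ * ⟨t, t.2.1⟩ := rfl
          have h2 : (⟨((s * t : (U ⊓ A : Subgroup Γ)) : Γ), (s * t).2.2⟩ : A) =
            ⟨s, s.2.2⟩ * ⟨t, t.2.2⟩ := rfl
          rw [h1, h2, map_mul, map_mul, mul_inv]
          exact mul_mul_mul_comm _ _ _ _ }
    have h1 := sum_char (E := E) η
    have h2 : η = 1 ↔ ψ ∈ XX A U χ := by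
      constructor
      · intro h t ht hu
        have h3 := DFunLike.congr_fun h ⟨t, hu, ht⟩
        change (χ ⟨t, hu⟩)⁻¹ * ψ ⟨t, ht⟩ = 1 at h3
        exact (inv_mul_eq_one.1 h3).symm
      · intro h
        ext t
        change (((χ ⟨t, t.2.1⟩)⁻¹ * ψ ⟨t, t.2.2⟩ : Eˣ) : E) = 1
        rw [h _ t.2.2 t.2.1, inv_mul_cancel, Units.val_one]
    have h3 : ∑ t : (U ⊓ A : Subgroup Γ), ((χ ⟨t, t.2.1⟩)⁻¹ : Eˣ) *
        ((ψ ⟨t, t.2.2⟩ : E) * (ψ ⟨z, hz⟩ : E)) = (∑ t, (η t : E)) * (ψ ⟨z, hz⟩ : E) := by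
      rw [Finset.sum_mul]
      refine Finset.sum_congr rfl fun t _ => ?_
      change _ = (((χ ⟨t, t.2.1⟩)⁻¹ * ψ ⟨t, t.2.2⟩ : Eˣ) : E) * _
      rw [Units.val_mul]
      ring
    rw [h3, h1]
    by_cases h4 : ψ ∈ XX A U χ
    · rw [if_pos h4, if_pos (h2.2 h4)]
    · rw [if_neg h4, if_neg (fun h5 => h4 (h2.1 h5)), mul_zero, zero_mul]
  rw [Finset.mul_sum, Finset.sum_congr rfl fun ψ _ => hX ψ, Finset.sum_comm]
  have h4 : ∀ t : (U ⊓ A : Subgroup Γ), ∑ ψ : A →* Eˣ, ((χ ⟨t, t.2.1⟩)⁻¹ : Eˣ) *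
      ((ψ ⟨t, t.2.2⟩ : E) * (ψ ⟨z, hz⟩ : E)) =
      (((χ ⟨t, t.2.1⟩)⁻¹ : Eˣ) : E) * (if (t : Γ) * z = 1 then (Nat.card A : E) else 0) := by
    intro t
    rw [← Finset.mul_sum]
    congr 1
    have h5 := orth E hc ((⟨t, t.2.2⟩ : A) * ⟨z, hz⟩)
    have h6 : ((⟨t, t.2.2⟩ : A) * ⟨z, hz⟩ = 1) ↔ (t : Γ) * z = 1 := by
      rw [← Subtype.coe_inj]
      rfl
    have h7 : ∑ ψ : A →* Eˣ, ((ψ ⟨t, t.2.2⟩ : E) * (ψ ⟨z, hz⟩ : E)) =
        ∑ ψ : A →* Eˣ, ((ψ ((⟨t, t.2.2⟩ : A) * ⟨z, hz⟩) : Eˣ) : E) := by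
      refine Finset.sum_congr rfl fun ψ _ => ?_
      rw [map_mul, Units.val_mul]
    rw [h7, h5]
    by_cases h8 : (t : Γ) * z = 1
    · rw [if_pos h8, if_pos (h6.2 h8)]
    · rw [if_neg h8, if_neg (fun h9 => h8 (h6.1 h9))]
  rw [Finset.sum_congr rfl fun t _ => h4 t]
  by_cases hu : z ∈ U
  · rw [dif_pos hu, Finset.sum_eq_single (⟨z⁻¹, Subgroup.mem_inf.2 ⟨inv_mem hu, inv_mem hz⟩⟩ :
      (U ⊓ A : Subgroup Γ))]
    · rw [if_pos (by simp)]
      have h7 : (⟨z⁻¹, inv_mem hu⟩ : U) = (⟨z, hu⟩ : U)⁻¹ := rfl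
      simp only [h7, map_inv, inv_inv]
      ring
    · intro t _ ht
      rw [if_neg, mul_zero]
      intro h8
      apply ht
      exact Subtype.ext (eq_inv_of_mul_eq_one_left h8)
    · exact fun h => absurd (Finset.mem_univ _) h
  · rw [dif_neg hu, mul_zero]
    apply Finset.sum_eq_zero
    intro t _
    rw [if_neg, mul_zero]
    intro h8
    apply hu
    have h9 := eq_inv_of_mul_eq_one_right h8
    rw [h9]
    exact inv_mem t.2.1

/-- the character `χ ψ` continued by zero, summed over all `ψ` -/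
theorem claim1 (y : Γ) : ∑ a : A, ext U χ ((a : Γ)⁻¹ * y * a) =
    (Nat.card (U ⊓ A : Subgroup Γ) : E) * ∑ ψ : A →* Eˣ,
      (if h : ψ ∈ XX A U χ then ext (St A U ψ ⊔ A) (ph h) y else 0) := by
  by_cases hy : ∃ u ∈ U, ∃ b ∈ A, u * b = y
  · obtain ⟨u, hu, b, hb, rfl⟩ := hy
    have hAne : (Nat.card A : E) ≠ 0 := Nat.cast_ne_zero.2 Nat.card_pos.ne'
    have hca : ∀ a : A, b * (u⁻¹ * (a : Γ)⁻¹ * u * a) ∈ A := by
      intro a
      refine mul_mem hb (mul_mem ?_ a.2)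
      simpa using hA.conj_mem _ (inv_mem a.2) u⁻¹
    -- the left side
    have h1 : ∀ a : A, ext U χ ((a : Γ)⁻¹ * (u * b) * a) = (χ ⟨u, hu⟩ : E) *
        (if h : b * (u⁻¹ * (a : Γ)⁻¹ * u * a) ∈ U then
          (χ ⟨b * (u⁻¹ * (a : Γ)⁻¹ * u * a), h⟩ : E) else 0) := by
      intro a
      have h2 : (a : Γ)⁻¹ * (u * b) * a = u * (b * (u⁻¹ * (a : Γ)⁻¹ * u * a)) := by
        have h3 : u⁻¹ * (a : Γ)⁻¹ * u ∈ A := by simpa using hA.conj_mem _ (inv_mem a.2) u⁻¹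
        have h4 := hAc _ h3 b hb
        calc (a : Γ)⁻¹ * (u * b) * a = u * ((u⁻¹ * (a : Γ)⁻¹ * u) * b) * a := by group
          _ = u * (b * (u⁻¹ * (a : Γ)⁻¹ * u)) * a := by rw [h4]
          _ = _ := by group
      rw [h2]
      unfold ext
      by_cases h5 : b * (u⁻¹ * (a : Γ)⁻¹ * u * a) ∈ U
      · rw [dif_pos (mul_mem hu h5), dif_pos h5, ← Units.val_mul, ← map_mul]
        rfl
      · rw [dif_neg h5, dif_neg, mul_zero]
        intro h6
        apply h5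
        have := mul_mem (inv_mem hu) h6
        rwa [inv_mul_cancel_left] at this
    -- the right side
    have h2 : ∀ ψ : A →* Eˣ, (if h : ψ ∈ XX A U χ then ext (St A U ψ ⊔ A) (ph h) (u * b) else 0) =
        (χ ⟨u, hu⟩ : E) * (if ψ ∈ XX A U χ then
          (if cj A u ψ = ψ then (ψ ⟨b, hb⟩ : E) else 0) else 0) := by
      intro ψ
      by_cases h : ψ ∈ XX A U χ
      · rw [dif_pos h, if_pos h, ext_ph hAc h hu hb]
        split_ifs <;> simp
      · rw [dif_neg h, if_neg h, mul_zero]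
    rw [Finset.sum_congr rfl fun a _ => h1 a, Finset.sum_congr rfl fun ψ _ => h2 ψ,
      ← Finset.mul_sum, ← Finset.mul_sum, mul_left_comm]
    congr 1
    -- Fourier
    apply mul_left_cancel₀ hAne
    rw [Finset.mul_sum]
    have h3 : ∀ a : A, (Nat.card A : E) * (if h : b * (u⁻¹ * (a : Γ)⁻¹ * u * a) ∈ U then
          (χ ⟨b * (u⁻¹ * (a : Γ)⁻¹ * u * a), h⟩ : E) else 0) =
        (Nat.card (U ⊓ A : Subgroup Γ) : E) * ∑ ψ : A →* Eˣ,
          (if ψ ∈ XX A U χ then (ψ ⟨b, hb⟩ : E) * ((((cj A u ψ)⁻¹ * ψ : A →* Eˣ) a : Eˣ) : E)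
            else 0) := by
      intro a
      rw [← fourier hAc (U := U) (χ := χ) _ (hca a)]
      congr 1
      refine Finset.sum_congr rfl fun ψ _ => ?_
      by_cases h : ψ ∈ XX A U χ
      · rw [if_pos h, if_pos h]
        have hm : u⁻¹ * (a : Γ) * u ∈ A := by simpa using hA.conj_mem _ a.2 u⁻¹
        have h4 : (⟨b * (u⁻¹ * (a : Γ)⁻¹ * u * a), hca a⟩ : A) =
            (⟨b, hb⟩ : A) * ((⟨u⁻¹ * (a : Γ) * u, hm⟩ : A)⁻¹ * a) := by
          apply Subtype.ext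
          change b * (u⁻¹ * (a : Γ)⁻¹ * u * a) = b * ((u⁻¹ * (a : Γ) * u)⁻¹ * a)
          group
        rw [h4, map_mul, map_mul, map_inv, Units.val_mul]
        rfl
      · rw [if_neg h, if_neg h]
    rw [Finset.sum_congr rfl fun a _ => h3 a, ← Finset.mul_sum, Finset.sum_comm, mul_left_comm]
    congr 1
    rw [Finset.mul_sum]
    refine Finset.sum_congr rfl fun ψ _ => ?_
    by_cases h : ψ ∈ XX A U χ
    · simp only [if_pos h]
      rw [← Finset.mul_sum, sum_char]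
      have h5 : (cj A u ψ)⁻¹ * ψ = 1 ↔ cj A u ψ = ψ := by
        constructor
        · intro h6
          ext a
          have h7 := DFunLike.congr_fun h6 a
          change (cj A u ψ a)⁻¹ * ψ a = 1 at h7
          rw [inv_mul_eq_one.1 h7]
        · intro h6
          ext a
          change (((cj A u ψ a)⁻¹ * ψ a : Eˣ) : E) = 1
          rw [h6, inv_mul_cancel, Units.val_one]
      by_cases h8 : cj A u ψ = ψ
      · rw [if_pos h8, if_pos (h5.2 h8)]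
        ring
      · rw [if_neg h8, if_neg (fun h9 => h8 (h5.1 h9))]
        ring
    · simp only [if_neg h, Finset.sum_const_zero, mul_zero]
  · have h1 : ∀ a : A, ext U χ ((a : Γ)⁻¹ * y * a) = 0 := by
      intro a
      unfold ext
      rw [dif_neg]
      intro h
      apply hy
      refine ⟨_, h, ((a : Γ)⁻¹ * y * a)⁻¹ * a * ((a : Γ)⁻¹ * y * a) * (a : Γ)⁻¹, ?_, ?_⟩
      · refine mul_mem ?_ (inv_mem a.2)
        simpa using hA.conj_mem _ a.2 ((a : Γ)⁻¹ * y * a)⁻¹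
      · group
    have h2 : ∀ ψ : A →* Eˣ, (if h : ψ ∈ XX A U χ then ext (St A U ψ ⊔ A) (ph h) y else 0) = 0 := by
      intro ψ
      split_ifs with h
      · exact ext_ph_zero h hy
      · rfl
    rw [Finset.sum_congr rfl fun a _ => h1 a, Finset.sum_congr rfl fun ψ _ => h2 ψ]
    simp

end

omit [CharZero E] [Fintype Γ] in
lemma card_W [Finite Γ] (hAc : ∀ a ∈ A, ∀ b ∈ A, a * b = b * a) (ψ : A →* Eˣ) : Nat.card (St A U ψ ⊔ A : Subgroup Γ) * Nat.card (U ⊓ A : Subgroup Γ) =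
    Nat.card (St A U ψ) * Nat.card A := by
  have h1 : A.relIndex (St A U ψ ⊔ A) = A.relIndex (St A U ψ) := Subgroup.relIndex_sup_right _ _
  have h2 : Nat.card (St A U ψ ⊔ A : Subgroup Γ) =
      Nat.card A * A.relIndex (St A U ψ ⊔ A) := by
    have h3 := Subgroup.card_mul_index (A.subgroupOf (St A U ψ ⊔ A))
    rw [Nat.card_congr (Subgroup.subgroupOfEquivOfLe (le_sup_right : A ≤ St A U ψ ⊔ A)).toEquiv] at h3
    exact h3.symm
  have h4 : U ⊓ A = St A U ψ ⊓ A := by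
    ext x
    constructor
    · rintro ⟨hx, hx'⟩
      exact ⟨⟨hx, cj_self A hAc x hx' ψ⟩, hx'⟩
    · rintro ⟨hx, hx'⟩
      exact ⟨hx.1, hx'⟩
  have h5 : Nat.card (St A U ψ) = Nat.card (U ⊓ A : Subgroup Γ) * A.relIndex (St A U ψ) := by
    have h6 := Subgroup.card_mul_index (A.subgroupOf (St A U ψ))
    have h7 : A.subgroupOf (St A U ψ) = (U ⊓ A).subgroupOf (St A U ψ) := by
      rw [h4, Subgroup.inf_subgroupOf_left]
    have h8 : (U ⊓ A : Subgroup Γ) ≤ St A U ψ := by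
      rw [h4]
      exact inf_le_left
    rw [h7, Nat.card_congr (Subgroup.subgroupOfEquivOfLe h8).toEquiv] at h6
    rw [← h6, ← h7]
    rfl
  rw [h2, h1, h5]
  ring

end Pool.Agent.V8H87.EB.AN
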