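import Pool.Agent.V8H87.EB.AN2

/-!
# Induced characters and abelian normal subgroups: the sum over the orbits
-/

set_option autoImplicit false

open scoped Classical

namespace Pool.Agent.V8H87.EB.AN

open Finset

section Orbits

variable {G X : Type} [Group G] [Fintype G] [Fintype X] [MulAction G X] {E : Type} [Field E]
  [CharZero E]

lemma sum_orbits (P : X → Prop) (hP : ∀ (g : G) x, P x → P (g • x)) (F : X → E)
    (hF : ∀ (g : G) x, F (g • x) = F x) :
    ∑ ω : {ω : MulAction.orbitRel.Quotient G X // P (Quotient.out ω)}, F (Quotient.out ω.1) =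
      ∑ x : X, if P x then ((Nat.card (MulAction.orbit G x) : E)⁻¹ * F x) else 0 := by
  have h1 := Finset.sum_fiberwise (Finset.univ : Finset X)
    (fun x => (Quotient.mk'' x : MulAction.orbitRel.Quotient G X))
    (fun x => if P x then ((Nat.card (MulAction.orbit G x) : E)⁻¹ * F x) else 0)
  rw [← h1]
  have h2 : ∀ ω : MulAction.orbitRel.Quotient G X, ∑ x ∈ Finset.univ.filter
      (fun x => (Quotient.mk'' x : MulAction.orbitRel.Quotient G X) = ω),
        (if P x then ((Nat.card (MulAction.orbit G x) : E)⁻¹ * F x) else 0) =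
      if P (Quotient.out ω) then F (Quotient.out ω) else 0 := by
    intro ω
    have h3 : ∀ x : X, (Quotient.mk'' x : MulAction.orbitRel.Quotient G X) = ω ↔
        x ∈ MulAction.orbit G (Quotient.out ω) := by
      intro x
      rw [← MulAction.orbitRel_apply]
      constructor
      · intro h
        have h4 : (Quotient.mk'' x : MulAction.orbitRel.Quotient G X) =
            Quotient.mk'' (Quotient.out ω) := by
          rw [h]
          exact (Quotient.out_eq ω).symm
        exact Quotient.exact h4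
      · intro h
        have h4 : (Quotient.mk'' x : MulAction.orbitRel.Quotient G X) =
            Quotient.mk'' (Quotient.out ω) := Quotient.sound h
        rw [h4]
        exact Quotient.out_eq ω
    have h4 : ∀ x ∈ Finset.univ.filter
        (fun x => (Quotient.mk'' x : MulAction.orbitRel.Quotient G X) = ω),
        (if P x then ((Nat.card (MulAction.orbit G x) : E)⁻¹ * F x) else 0) =
          if P (Quotient.out ω) then ((Nat.card (MulAction.orbit G (Quotient.out ω)) : E)⁻¹ *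
            F (Quotient.out ω)) else 0 := by
      intro x hx
      rw [Finset.mem_filter, h3] at hx
      obtain ⟨g, rfl⟩ := hx.2
      change (if P (g • Quotient.out ω) then ((Nat.card (MulAction.orbit G
        (g • Quotient.out ω)) : E)⁻¹ * F (g • Quotient.out ω)) else 0) = _
      rw [MulAction.orbit_smul, hF]
      by_cases h : P (Quotient.out ω)
      · rw [if_pos h, if_pos (hP g _ h)]
      · rw [if_neg h, if_neg]
        intro h5
        apply h
        have := hP g⁻¹ _ h5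
        rwa [inv_smul_smul] at this
    rw [Finset.sum_congr rfl h4, Finset.sum_const, nsmul_eq_mul]
    have h5 : ((Finset.univ.filter (fun x =>
        (Quotient.mk'' x : MulAction.orbitRel.Quotient G X) = ω)).card : E) =
          Nat.card (MulAction.orbit G (Quotient.out ω)) := by
      congr 1
      rw [Nat.card_eq_fintype_card, ← Set.toFinset_card]
      congr 1
      ext x
      rw [Finset.mem_filter, h3, Set.mem_toFinset]
      exact ⟨fun h => h.2, fun h => ⟨Finset.mem_univ _, h⟩⟩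
    rw [h5]
    have h6 : (Nat.card (MulAction.orbit G (Quotient.out ω)) : E) ≠ 0 := by
      haveI : Nonempty (MulAction.orbit G (Quotient.out ω)) :=
        ⟨⟨_, MulAction.mem_orbit_self _⟩⟩
      exact Nat.cast_ne_zero.2 Nat.card_pos.ne'
    split_ifs
    · rw [← mul_assoc, mul_inv_cancel₀ h6, one_mul]
    · rw [mul_zero]
  rw [Finset.sum_congr rfl fun ω _ => h2 ω]
  rw [← Finset.sum_filter, Finset.sum_subtype (Finset.univ.filter
    (fun ω : MulAction.orbitRel.Quotient G X => P (Quotient.out ω)))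
    (p := fun ω => P (Quotient.out ω)) (fun ω => by simp)]

end Orbits

variable {Γ : Type} [Group Γ] [Fintype Γ] {E : Type} [Field E] [CharZero E] [IsAlgClosed E]

/-- the action of `U` on the characters of `A` -/
@[reducible] def uact (A : Subgroup Γ) [A.Normal] (U : Subgroup Γ) (E : Type) [Field E] :
    MulAction U (A →* Eˣ) where
  smul := fun u ψ => cj A (u : Γ) ψ
  one_smul := fun ψ => cj_one A ψ
  mul_smul := fun u v ψ => cj_mul A u v ψ

/-- the sum over the orbits of `U` -/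
theorem decomp_explicit (A : Subgroup Γ) [hA : A.Normal] (hAc : ∀ a ∈ A, ∀ b ∈ A, a * b = b * a)
    (U : Subgroup Γ) (χ : U →* Eˣ) [Fintype (A →* Eˣ)] (g : Γ) :
    ind U χ g = letI := uact A U E
      ∑ ω : {ω : MulAction.orbitRel.Quotient U (A →* Eˣ) // Quotient.out ω ∈ XX A U χ},
        ind (St A U (Quotient.out ω.1) ⊔ A) (ph ω.2) g := by
  letI act := uact A U E
  change ind U χ g =
      ∑ ω : {ω : MulAction.orbitRel.Quotient U (A →* Eˣ) // Quotient.out ω ∈ XX A U χ},
        ind (St A U (Quotient.out ω.1) ⊔ A) (ph ω.2) g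
  have hsmul : ∀ (u : U) (ψ : A →* Eˣ), u • ψ = cj A (u : Γ) ψ := fun _ _ => rfl
  have hUne : (Nat.card U : E) ≠ 0 := Nat.cast_ne_zero.2 Nat.card_pos.ne'
  have hAne : (Nat.card A : E) ≠ 0 := Nat.cast_ne_zero.2 Nat.card_pos.ne'
  have hIne : (Nat.card (U ⊓ A : Subgroup Γ) : E) ≠ 0 := Nat.cast_ne_zero.2 Nat.card_pos.ne'
  have hOne : ∀ ψ : A →* Eˣ, (Nat.card (MulAction.orbit U ψ) : E) ≠ 0 := by
    intro ψ
    haveI : Nonempty (MulAction.orbit U ψ) := ⟨⟨_, MulAction.mem_orbit_self _⟩⟩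
    exact Nat.cast_ne_zero.2 Nat.card_pos.ne'
  -- the cardinality of `W`
  have hcardW : ∀ ψ : A →* Eˣ, (Nat.card (St A U ψ ⊔ A : Subgroup Γ) : E) *
      ((Nat.card (MulAction.orbit U ψ) : E) * Nat.card (U ⊓ A : Subgroup Γ)) =
        Nat.card U * Nat.card A := by
    intro ψ
    have h1 := card_W (U := U) hAc ψ
    have h2 : Nat.card (MulAction.orbit U ψ) * Nat.card (St A U ψ) = Nat.card U := by
      have h3 := MulAction.card_orbit_mul_card_stabilizer_eq_card_group U ψ
      rw [← Nat.card_eq_fintype_card, ← Nat.card_eq_fintype_card, ← Nat.card_eq_fintype_card] at h3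
      rw [← h3]
      congr 1
      refine Nat.card_congr ⟨fun x => ⟨⟨x, x.2.1⟩, x.2.2⟩, fun x => ⟨x.1, x.1.2, x.2⟩, ?_, ?_⟩
      · intro x
        rfl
      · intro x
        rfl
    have h3 : ((Nat.card (St A U ψ ⊔ A : Subgroup Γ) : E) * Nat.card (U ⊓ A : Subgroup Γ)) =
        Nat.card (St A U ψ) * Nat.card A := by exact_mod_cast h1
    have h4 : (Nat.card (MulAction.orbit U ψ) : E) * Nat.card (St A U ψ) = Nat.card U := by
      exact_mod_cast h2
    rw [← h4]
    calc _ = (Nat.card (MulAction.orbit U ψ) : E) *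
        ((Nat.card (St A U ψ ⊔ A : Subgroup Γ) : E) * Nat.card (U ⊓ A : Subgroup Γ)) := by ring
      _ = _ := by rw [h3]; ring
  -- invariance
  let F' : (A →* Eˣ) → E := fun ψ => ∑ x : Γ,
    if h : ψ ∈ XX A U χ then ext (St A U ψ ⊔ A) (ph h) (x⁻¹ * g * x) else 0
  have hXX : ∀ (u : U) (ψ : A →* Eˣ), ψ ∈ XX A U χ → u • ψ ∈ XX A U χ :=
    fun u ψ hψ => XX_cj A U χ hψ u.2
  have hXX' : ∀ (u : U) (ψ : A →* Eˣ), u • ψ ∈ XX A U χ ↔ ψ ∈ XX A U χ := by
    intro u ψ
    refine ⟨fun h => ?_, hXX u ψ⟩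
    have := hXX u⁻¹ _ h
    rwa [inv_smul_smul] at this
  have hext : ∀ (u : U) (ψ : A →* Eˣ) (h : ψ ∈ XX A U χ) (h' : u • ψ ∈ XX A U χ) (y : Γ),
      ext (St A U (u • ψ) ⊔ A) (ph h') y =
        ext (St A U ψ ⊔ A) (ph h) ((u : Γ)⁻¹ * y * u) := by
    intro u ψ h h' y
    by_cases hy : ∃ v ∈ U, ∃ b ∈ A, v * b = y
    · obtain ⟨v, hv, b, hb, rfl⟩ := hy
      have hb' : (u : Γ)⁻¹ * b * u ∈ A := by simpa using hA.conj_mem b hb (u : Γ)⁻¹
      have hv' : (u : Γ)⁻¹ * v * u ∈ U := mul_mem (mul_mem (inv_mem u.2) hv) u.2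
      have e1 : (u : Γ)⁻¹ * (v * b) * u = ((u : Γ)⁻¹ * v * u) * ((u : Γ)⁻¹ * b * u) := by group
      rw [e1, ext_ph hAc h' hv hb, ext_ph hAc h hv' hb']
      have h1 : cj A v (u • ψ) = u • ψ ↔ cj A ((u : Γ)⁻¹ * v * u) ψ = ψ := by
        rw [hsmul, ← cj_mul, mul_assoc, cj_mul A (u : Γ)⁻¹]
        constructor
        · intro h2
          rw [h2, ← cj_mul, inv_mul_cancel, cj_one]
        · intro h2
          have h3 := congrArg (cj A (u : Γ)) h2
          rwa [← cj_mul, mul_inv_cancel, cj_one] at h3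
      have h2 : χ ⟨(u : Γ)⁻¹ * v * u, hv'⟩ = χ ⟨v, hv⟩ := by
        have h3 : (⟨(u : Γ)⁻¹ * v * u, hv'⟩ : U) = u⁻¹ * ⟨v, hv⟩ * u := rfl
        rw [h3, map_mul, map_mul, map_inv, mul_comm, mul_inv_cancel_left]
      have h4 : ψ ⟨(u : Γ)⁻¹ * b * u, hb'⟩ = (u • ψ) ⟨b, hb⟩ := rfl
      rw [h2, h4]
      by_cases h5 : cj A v (u • ψ) = u • ψ
      · rw [if_pos h5, if_pos (h1.1 h5)]
      · rw [if_neg h5, if_neg (fun h6 => h5 (h1.2 h6))]
    · rw [ext_ph_zero h' hy, ext_ph_zero h]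
      rintro ⟨v, hv, b, hb, e⟩
      apply hy
      refine ⟨(u : Γ) * v * (u : Γ)⁻¹, mul_mem (mul_mem u.2 hv) (inv_mem u.2),
        (u : Γ) * b * (u : Γ)⁻¹, hA.conj_mem b hb u, ?_⟩
      have e2 : y = (u : Γ) * ((u : Γ)⁻¹ * y * u) * (u : Γ)⁻¹ := by group
      rw [e2, ← e]
      group
  have hF' : ∀ (u : U) (ψ : A →* Eˣ), F' (u • ψ) = F' ψ := by
    intro u ψ
    simp only [F']
    by_cases h : ψ ∈ XX A U χ
    · have h' := hXX u ψ h
      simp only [dif_pos h, dif_pos h']
      refine Eq.trans (Finset.sum_congr rfl fun x _ => ?_) (Equiv.sum_comp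
        (Equiv.mulRight (u : Γ)) (fun x => ext (St A U ψ ⊔ A) (ph h) (x⁻¹ * g * x)))
      rw [hext u ψ h h']
      congr 1
      rw [Equiv.coe_mulRight]
      group
    · have h' : u • ψ ∉ XX A U χ := fun h1 => h ((hXX' u ψ).1 h1)
      simp only [dif_neg h, dif_neg h']
  -- the induced characters
  let F : (A →* Eˣ) → E := fun ψ =>
    ((Nat.card (MulAction.orbit U ψ) : E) * Nat.card (U ⊓ A : Subgroup Γ)) /
      (Nat.card U * Nat.card A) * F' ψ
  have hF : ∀ (u : U) (ψ : A →* Eˣ), F (u • ψ) = F ψ := by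
    intro u ψ
    simp only [F]
    rw [MulAction.orbit_smul, hF']
  have hind : ∀ (ψ : A →* Eˣ) (h : ψ ∈ XX A U χ), ind (St A U ψ ⊔ A) (ph h) g = F ψ := by
    intro ψ h
    simp only [F, F', dif_pos h]
    unfold ind
    congr 1
    have hWne : (Nat.card (St A U ψ ⊔ A : Subgroup Γ) : E) ≠ 0 :=
      Nat.cast_ne_zero.2 Nat.card_pos.ne'
    have hOI := mul_ne_zero (hOne ψ) hIne
    rw [← hcardW ψ, eq_div_iff (mul_ne_zero hWne hOI), ← mul_assoc, inv_mul_cancel₀ hWne, one_mul]
  have h1 := sum_orbits (G := U) (fun ψ => ψ ∈ XX A U χ) hXX F hF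
  have h2 : ∑ ω : {ω : MulAction.orbitRel.Quotient U (A →* Eˣ) // Quotient.out ω ∈ XX A U χ},
      ind (St A U (Quotient.out ω.1) ⊔ A) (ph ω.2) g =
      ∑ ω : {ω : MulAction.orbitRel.Quotient U (A →* Eˣ) // Quotient.out ω ∈ XX A U χ},
        F (Quotient.out ω.1) :=
    Finset.sum_congr rfl fun ω _ => hind _ ω.2
  rw [h2, h1]
  -- claim 1
  have h3 : ∀ ψ : A →* Eˣ, (if ψ ∈ XX A U χ then
      ((Nat.card (MulAction.orbit U ψ) : E)⁻¹ * F ψ) else 0) =
      (Nat.card (U ⊓ A : Subgroup Γ) : E) / (Nat.card U * Nat.card A) * F' ψ := by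
    intro ψ
    by_cases h : ψ ∈ XX A U χ
    · rw [if_pos h]
      simp only [F]
      rw [← mul_assoc, ← mul_div_assoc, ← mul_assoc, inv_mul_cancel₀ (hOne ψ), one_mul]
    · rw [if_neg h]
      simp only [F', dif_neg h, Finset.sum_const_zero, mul_zero]
  rw [Finset.sum_congr rfl fun ψ _ => h3 ψ, ← Finset.mul_sum]
  simp only [F']
  rw [Finset.sum_comm]
  have h4 : ∀ x : Γ, (Nat.card (U ⊓ A : Subgroup Γ) : E) * ∑ ψ : A →* Eˣ,
      (if h : ψ ∈ XX A U χ then ext (St A U ψ ⊔ A) (ph h) (x⁻¹ * g * x) else 0) =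
      ∑ a : A, ext U χ ((x * a)⁻¹ * g * (x * a)) := by
    intro x
    rw [← claim1 hAc]
    refine Finset.sum_congr rfl fun a _ => ?_
    congr 1
    group
  have h5 : (Nat.card (U ⊓ A : Subgroup Γ) : E) / (Nat.card U * Nat.card A) *
      ∑ x : Γ, ∑ ψ : A →* Eˣ,
        (if h : ψ ∈ XX A U χ then ext (St A U ψ ⊔ A) (ph h) (x⁻¹ * g * x) else 0) =
      ((Nat.card U : E) * Nat.card A)⁻¹ * ∑ x : Γ, ∑ a : A,
        ext U χ ((x * a)⁻¹ * g * (x * a)) := by
    rw [← Finset.sum_congr rfl fun x _ => h4 x, ← Finset.mul_sum]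
    ring
  rw [h5, Finset.sum_comm]
  have h6 : ∀ a : A, ∑ x : Γ, ext U χ ((x * a)⁻¹ * g * (x * a)) =
      ∑ x : Γ, ext U χ (x⁻¹ * g * x) := by
    intro a
    exact Equiv.sum_comp (Equiv.mulRight (a : Γ)) (fun x => ext U χ (x⁻¹ * g * x))
  rw [Finset.sum_congr rfl fun a _ => h6 a, Finset.sum_const, nsmul_eq_mul, Finset.card_univ,
    ← Nat.card_eq_fintype_card]
  unfold ind
  field_simp

/-- **Characters induced from any subgroup are sums of characters induced from linear characters of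
subgroups which contain a given abelian normal subgroup.** -/
theorem decomp (A : Subgroup Γ) [hA : A.Normal] (hAc : ∀ a ∈ A, ∀ b ∈ A, a * b = b * a)
    (U : Subgroup Γ) (χ : U →* Eˣ) :
    ∃ (ι : Type) (_ : Fintype ι) (W : ι → Subgroup Γ) (φ : ∀ i, W i →* Eˣ),
      (∀ i, A ≤ W i) ∧ ∀ g, ind U χ g = ∑ i, ind (W i) (φ i) g := by
  haveI : Finite (A →* Eˣ) := finite_hom E (fun a b : A => Subtype.ext (hAc a a.2 b b.2))
  letI : Fintype (A →* Eˣ) := Fintype.ofFinite _
  letI act := uact A U E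
  exact ⟨{ω : MulAction.orbitRel.Quotient U (A →* Eˣ) // Quotient.out ω ∈ XX A U χ},
    inferInstance, fun ω => St A U (Quotient.out ω.1) ⊔ A, fun ω => ph ω.2,
    fun ω => le_sup_right, fun g => decomp_explicit A hAc U χ g⟩

end Pool.Agent.V8H87.EB.AN
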