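import Pool.Agent.V8H87.EB.St

/-!
# Descent of the field of coefficients
-/

set_option autoImplicit false

open scoped Classical

namespace Pool.Agent.V8H87.EB

variable {S : Type} [Fintype S] {Γ : Type} [Group Γ] [Fintype Γ] {R : Γ → S → S}
  {V : Submodule ℝ (S → ℝ)} {H B : Submodule ℚ (S → ℝ)}

/-- Q1 for `χ` can be checked over an algebraic closure of the field of coefficients -/
theorem comp_descent (L : (U : Subgroup Γ) → (U →* ℂˣ) → ℂ) (hL : ∀ U ψ, L U ψ ≠ 0)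
    (hR1 : ∀ τ, R 1 τ = τ)
    (hR : ∀ γ γ' τ, R (γ * γ') τ = R γ' (R γ τ)) (hVH : IsForm V H) (hVB : IsForm V B)
    (hH : ∀ γ, ∀ α ∈ H, act R γ α ∈ H) (hB : ∀ γ, ∀ α ∈ B, act R γ α ∈ B)
    {E F : Type} [Field E] [CharZero E] [Field F] [CharZero F] [Algebra E F]
    [Algebra.IsAlgebraic E F] [IsGalois E F] {U : Subgroup Γ} {χ : U →* Eˣ}
    (hF : Comp R F U ((Units.map (algebraMap E F : E →* F)).comp χ) hH hB L) :
    Comp R E U χ hH hB L := by
  intro d h b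
  obtain ⟨ρ, θ, -, -, hk⟩ := key L hR1 hR hVH hVB hH hB h b
  obtain ⟨q, hq0, hq⟩ := (hk F U _).1 (hF d h b)
  have hext : ∀ σ : E →+* ℂ, ∃ σ' : F →+* ℂ, ∀ x, σ' (algebraMap E F x) = σ x := by
    intro σ
    letI : Algebra E ℂ := σ.toAlgebra
    exact ⟨(IsAlgClosed.lift : F →ₐ[E] ℂ).toRingHom, fun x => AlgHom.commutes _ x⟩
  have hchar : ∀ (σ : E →+* ℂ) (σ' : F →+* ℂ), (∀ x, σ' (algebraMap E F x) = σ x) →
      (Units.map (σ' : F →* ℂ)).comp ((Units.map (algebraMap E F : E →* F)).comp χ) =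
        (Units.map (σ : E →* ℂ)).comp χ := by
    intro σ σ' hσ
    ext u
    exact hσ _
  have hcinv : ∀ (σ : E →+* ℂ) (σ' : F →+* ℂ), (∀ x, σ' (algebraMap E F x) = σ x) →
      cinv σ' ((Units.map (algebraMap E F : E →* F)).comp χ) = cinv σ χ := by
    intro σ σ' hσ
    ext u
    simp [cinv, hσ]
  by_cases hne : Nonempty (E →+* ℂ)
  · obtain ⟨σ₀⟩ := hne
    obtain ⟨σ₁, hσ₁⟩ := hext σ₀
    have hfix : ∀ τ : F ≃ₐ[E] F, τ q = q := by
      intro τ
      have h1 := hq σ₁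
      have h2 := hq (σ₁.comp (τ : F →+* F))
      have hσ₂ : ∀ x, (σ₁.comp (τ : F →+* F)) (algebraMap E F x) = σ₀ x := by
        intro x
        rw [RingHom.comp_apply]
        change σ₁ (τ (algebraMap E F x)) = _
        rw [AlgEquiv.commutes, hσ₁]
      rw [hchar σ₀ _ hσ₁, hcinv σ₀ _ hσ₁] at h1
      rw [hchar σ₀ _ hσ₂, hcinv σ₀ _ hσ₂, h1] at h2
      have h3 := mul_right_cancel₀ (hL _ _) h2
      exact (σ₁.injective h3).symm
    obtain ⟨q₀, hq₀⟩ := (InfiniteGalois.mem_range_algebraMap_iff_fixed q).2 hfix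
    refine (hk E U χ).2 ⟨q₀, ?_, fun σ => ?_⟩
    · rintro rfl
      rw [map_zero] at hq₀
      exact hq0 hq₀.symm
    · obtain ⟨σ', hσ'⟩ := hext σ
      have h1 := hq σ'
      rw [hchar σ _ hσ', hcinv σ _ hσ', ← hq₀, hσ'] at h1
      exact h1
  · exact (hk E U χ).2 ⟨1, one_ne_zero, fun σ => absurd ⟨σ⟩ hne⟩

end Pool.Agent.V8H87.EB
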