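import Pool.Agent.V8H87.EB.AN3
import Pool.Agent.V8H87.EB.Desc

/-!
# Q1 for the abelian extensions inside an abelian extension of a normal field
-/

set_option autoImplicit false

open scoped Classical

namespace Pool.Agent.V8H87.EB

variable {k N : Type} [Field k] [Field N] [NumberField k] [NumberField N] [Algebra k N]
  [FiniteDimensional k N] {w : ℕ}

/-- descent of the field of coefficients to `E` from an algebraic closure -/
theorem Borel.comp_descent (D : Borel k N w) (E : Type) [Field E] [CharZero E]
    (U : Subgroup (N ≃ₐ[k] N)) (χ : U →* Eˣ)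
    (h : Comp right (AlgebraicClosure E) U
      ((Units.map (algebraMap E (AlgebraicClosure E) : E →* AlgebraicClosure E)).comp χ)
        D.stable (Bplus_stable w) D.A.L) :
    Comp right E U χ D.stable (Bplus_stable w) D.A.L :=
  EB.comp_descent D.A.L D.A.ne_zero right_one right_mul D.form (Bplus_form N w) D.stable
    (Bplus_stable w) h

/-- the reduction to the subgroups which contain `A` -/
theorem Borel.q1_of_normal (D : Borel k N w) (A : Subgroup (N ≃ₐ[k] N)) [A.Normal]
    (hA : ∀ a ∈ A, ∀ b ∈ A, a * b = b * a)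
    (h : ∀ V W : Subgroup (N ≃ₐ[k] N), A ≤ V → W ≤ V → Q1 D V W)
    (U W : Subgroup (N ≃ₐ[k] N)) : Q1 D U W := by
  intro E _ _ χ _
  apply D.comp_descent
  obtain ⟨ι, _, V, φ, h1, h2⟩ := AN.decomp A hA U
    ((Units.map (algebraMap E (AlgebraicClosure E) : E →* AlgebraicClosure E)).comp χ)
  refine D.closure (AlgebraicClosure E) V φ (fun _ => 1) (fun i => ?_) U _ ?_
  · refine h (V i) ⊥ (h1 i) bot_le (AlgebraicClosure E) (φ i) ?_
    intro u hu
    have : u = 1 := Subtype.ext (Subgroup.mem_bot.1 hu)
    rw [this, map_one]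
  · intro g
    rw [h2 g]
    refine Finset.sum_congr rfl fun i _ => ?_
    rw [Int.cast_one, one_mul]

end Pool.Agent.V8H87.EB
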