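import Pool.Agent.Helper605.TraceR

/-!
# Determinants and traces of powers
-/

set_option autoImplicit false

namespace Pool.Agent.V8H87.EB

open Finset Polynomial

/-- A function with finite support that annihilates all powers is zero. -/
theorem pow_indep (s : Finset ℂ) (f : ℂ → ℂ) (hf : ∀ k : ℕ, ∑ r ∈ s, f r * r ^ k = 0) :
    ∀ r ∈ s, f r = 0 := by
  classical
  have hp : ∀ p : ℂ[X], ∑ r ∈ s, f r * p.eval r = 0 := by
    intro p
    have h1 : ∀ r, f r * p.eval r = ∑ i ∈ range (p.natDegree + 1), p.coeff i * (f r * r ^ i) := by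
      intro r
      rw [Polynomial.eval_eq_sum_range, mul_sum]
      exact sum_congr rfl fun i _ => by ring
    rw [sum_congr rfl fun r _ => h1 r, sum_comm]
    refine sum_eq_zero fun i _ => ?_
    rw [← mul_sum, hf, mul_zero]
  intro r hr
  have h2 := hp (∏ t ∈ s.erase r, (X - C t))
  rw [sum_eq_single r] at h2
  · rcases mul_eq_zero.1 h2 with h3 | h3
    · exact h3
    · exfalso
      rw [Polynomial.eval_prod, prod_eq_zero_iff] at h3
      obtain ⟨t, ht, h4⟩ := h3
      rw [eval_sub, eval_X, eval_C, sub_eq_zero] at h4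
      exact (mem_erase.1 ht).1 h4.symm
  · intro t ht htr
    rw [Polynomial.eval_prod, prod_eq_zero (mem_erase.2 ⟨htr, ht⟩), mul_zero]
    rw [eval_sub, eval_X, eval_C, sub_self]
  · exact fun h => absurd hr h

/-- If an integral combination of the traces of the powers is constant then the corresponding
product of the determinants is one. -/
theorem det_rel {ι : Type} [Fintype ι] {d : ℕ} (A : ι → Matrix (Fin d) (Fin d) ℂ) (n : ι → ℤ)
    (c : ℤ) (hA : ∀ i, (A i).det ≠ 0)
    (h : ∀ k : ℕ, ∑ i, (n i : ℂ) * ((A i) ^ k).trace = c) :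
    ∏ i, (A i).det ^ (n i) = 1 := by
  classical
  set Rt : ι → Multiset ℂ := fun i => (A i).charpoly.roots with hRt
  set s : Finset ℂ := insert 1 (univ.biUnion fun i => (Rt i).toFinset) with hs
  have hsub : ∀ i, (Rt i).toFinset ⊆ s := fun i =>
    (subset_biUnion_of_mem (fun i => (Rt i).toFinset) (mem_univ i)).trans (subset_insert _ _)
  have hsum : ∀ i (k : ℕ), ((A i) ^ k).trace = ∑ r ∈ s, ((Rt i).count r : ℂ) * r ^ k := by
    intro i k
    rw [Pool.Agent.Helper605.trace_pow_roots, Finset.sum_multiset_map_count,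
      ← sum_subset (hsub i)]
    · exact sum_congr rfl fun r _ => by rw [nsmul_eq_mul]
    · intro r _ hr
      rw [Multiset.count_eq_zero_of_notMem (fun h => hr (Multiset.mem_toFinset.2 h))]
      simp
  have hdet : ∀ i, (A i).det = ∏ r ∈ s, r ^ ((Rt i).count r) := by
    intro i
    rw [Matrix.det_eq_prod_roots_charpoly, Finset.prod_multiset_count,
      ← prod_subset (hsub i)]
    intro r _ hr
    rw [Multiset.count_eq_zero_of_notMem (fun h => hr (Multiset.mem_toFinset.2 h)), pow_zero]
  have hf : ∀ r ∈ s, (∑ i, (n i : ℂ) * ((Rt i).count r : ℂ)) - (if r = 1 then (c : ℂ) else 0) = 0 := by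
    refine pow_indep s _ fun k => ?_
    simp_rw [sub_mul]
    rw [sum_sub_distrib]
    have h1 : ∑ r ∈ s, (if r = 1 then (c : ℂ) else 0) * r ^ k = c := by
      rw [sum_eq_single 1]
      · simp
      · intro r _ hr
        rw [if_neg hr, zero_mul]
      · exact fun h => absurd (mem_insert_self _ _) h
    rw [h1, sub_eq_zero, ← h k]
    simp_rw [hsum, mul_sum, sum_mul]
    rw [sum_comm]
    exact sum_congr rfl fun i _ => sum_congr rfl fun r _ => by ring
  have hz : ∀ r ∈ s, r ≠ 1 → ∑ i, n i * ((Rt i).count r : ℤ) = 0 := by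
    intro r hr hr1
    have h1 := hf r hr
    rw [if_neg hr1, sub_zero] at h1
    exact_mod_cast h1
  have hprod : ∏ i, (A i).det ^ (n i) = ∏ r ∈ s, ∏ i, (r ^ ((Rt i).count r)) ^ (n i) := by
    rw [prod_comm]
    refine prod_congr rfl fun i _ => ?_
    rw [hdet, prod_zpow]
  rw [hprod]
  refine prod_eq_one fun r hr => ?_
  by_cases hr1 : r = 1
  · subst hr1
    simp
  by_cases hr0 : r = 0
  · subst hr0
    refine prod_eq_one fun i _ => ?_
    have h0 : (Rt i).count 0 = 0 := by
      rw [Multiset.count_eq_zero]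
      intro h0
      apply hA i
      rw [Matrix.det_eq_prod_roots_charpoly]
      exact Multiset.prod_eq_zero h0
    rw [h0, pow_zero, one_zpow]
  have h1 : ∀ i, (r ^ ((Rt i).count r)) ^ (n i) = r ^ (n i * ((Rt i).count r : ℤ)) := by
    intro i
    rw [← zpow_natCast, ← zpow_mul, mul_comm]
  rw [prod_congr rfl fun i _ => h1 i]
  have h2 : ∏ i, r ^ (n i * ((Rt i).count r : ℤ)) = r ^ (∑ i, n i * ((Rt i).count r : ℤ)) := by
    have h3 : ∀ t : Finset ι, ∏ i ∈ t, r ^ (n i * ((Rt i).count r : ℤ)) =
        r ^ (∑ i ∈ t, n i * ((Rt i).count r : ℤ)) := by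
      intro t
      induction t using Finset.induction_on with
      | empty => simp
      | insert a t ha ih => rw [prod_insert ha, sum_insert ha, ih, zpow_add₀ hr0]
    exact h3 univ
  rw [h2, hz r hr hr1, zpow_zero]

end Pool.Agent.V8H87.EB
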