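import Pool.Agent.V8H87.EB.Defs
import Pool.Agent.V8H87.EB.Tr

/-!
# Averages over subgroups
-/

set_option autoImplicit false

open scoped Classical

namespace Pool.Agent.V8H87.EB

open Finset Matrix

section

variable {Γ : Type} [Group Γ] {E : Type} [Field E]

lemma ext_mem (U : Subgroup Γ) (χ : U →* Eˣ) (u : U) : ext U χ (u : Γ) = χ u := by
  unfold ext
  rw [dif_pos u.2]

lemma ext_inv (U : Subgroup Γ) (χ : U →* Eˣ) (g : Γ) : ext U χ⁻¹ g = ext U χ g⁻¹ := by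
  unfold ext
  by_cases hg : g ∈ U
  · have hg' : g⁻¹ ∈ U := U.inv_mem hg
    rw [dif_pos hg, dif_pos hg']
    have e : (⟨g⁻¹, hg'⟩ : U) = ⟨g, hg⟩⁻¹ := rfl
    rw [e, map_inv]
    rfl
  · have hg' : g⁻¹ ∉ U := fun h => hg (U.inv_mem_iff.1 h)
    rw [dif_neg hg, dif_neg hg']

lemma ind_inv [Fintype Γ] (U : Subgroup Γ) (χ : U →* Eˣ) (g : Γ) : ind U χ⁻¹ g = ind U χ g⁻¹ := by
  unfold ind
  congr 1
  refine sum_congr rfl fun x _ => ?_
  rw [ext_inv]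
  congr 1
  group

lemma ind_map [Fintype Γ] {F : Type} [Field F] (σ : E →+* F) (U : Subgroup Γ) (χ : U →* Eˣ) (g : Γ) :
    ind U ((Units.map (σ : E →* F)).comp χ) g = σ (ind U χ g) := by
  unfold ind
  rw [map_mul, map_inv₀, map_natCast, map_sum]
  congr 1
  refine sum_congr rfl fun x _ => ?_
  unfold ext
  by_cases hg : x⁻¹ * g * x ∈ U
  · rw [dif_pos hg, dif_pos hg]
    rfl
  · rw [dif_neg hg, dif_neg hg, map_zero]

end

variable {Γ : Type} [Group Γ] [Fintype Γ]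

/-- The average of a class function over a subgroup, in terms of the induced character. -/
theorem avg_eq (U : Subgroup Γ) (ψ : U →* ℂˣ) (f : Γ → ℂ) (hf : ∀ x g, f (x * g * x⁻¹) = f g) :
    (Nat.card U : ℂ)⁻¹ * ∑ u : U, ((ψ u : ℂ))⁻¹ * f u =
      (Fintype.card Γ : ℂ)⁻¹ * ∑ g : Γ, ind U ψ g⁻¹ * f g := by
  have h0 : ∑ g : Γ, ext U ψ g⁻¹ * f g = ∑ u : U, ((ψ u : ℂ))⁻¹ * f u := by
    have e1 : ∀ u : U, ((ψ u : ℂ))⁻¹ * f u = ext U ψ ((u : Γ)⁻¹) * f u := by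
      intro u
      rw [← ext_inv, ext_mem]
      rw [MonoidHom.inv_apply, Units.val_inv_eq_inv_val]
    rw [sum_congr rfl fun u _ => e1 u]
    rw [← Finset.sum_subtype (univ.filter fun g => g ∈ U) (by simp)
      (fun g => ext U ψ g⁻¹ * f g)]
    symm
    apply sum_subset (filter_subset _ _)
    intro g _ hg
    have hg' : g⁻¹ ∉ U := fun h => hg (by simpa using h)
    unfold ext
    rw [dif_neg hg', zero_mul]
  have h1 : ∀ x : Γ, ∑ g : Γ, ext U ψ (x⁻¹ * g⁻¹ * x) * f g = ∑ u : U, ((ψ u : ℂ))⁻¹ * f u := by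
    intro x
    rw [← h0, ← Equiv.sum_comp (MulAut.conj x).toEquiv]
    refine sum_congr rfl fun g _ => ?_
    have e1 : (MulAut.conj x).toEquiv g = x * g * x⁻¹ := rfl
    have e2 : x⁻¹ * (x * g * x⁻¹)⁻¹ * x = g⁻¹ := by group
    rw [e1, e2, hf]
  have hΓ : (Fintype.card Γ : ℂ) ≠ 0 := by exact_mod_cast Fintype.card_ne_zero
  have h3 : ∑ g : Γ, ind U ψ g⁻¹ * f g =
      (Fintype.card Γ : ℂ) * ((Nat.card U : ℂ)⁻¹ * ∑ u : U, ((ψ u : ℂ))⁻¹ * f u) := by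
    unfold ind
    have e3 : ∀ g : Γ, (Nat.card U : ℂ)⁻¹ * (∑ x : Γ, ext U ψ (x⁻¹ * g⁻¹ * x)) * f g =
        ∑ x : Γ, (Nat.card U : ℂ)⁻¹ * (ext U ψ (x⁻¹ * g⁻¹ * x) * f g) := by
      intro g
      rw [mul_assoc, sum_mul, mul_sum]
    rw [sum_congr rfl fun g _ => e3 g, sum_comm]
    have e4 : ∀ x : Γ, ∑ g : Γ, (Nat.card U : ℂ)⁻¹ * (ext U ψ (x⁻¹ * g⁻¹ * x) * f g) =
        (Nat.card U : ℂ)⁻¹ * ∑ u : U, ((ψ u : ℂ))⁻¹ * f u := by
      intro x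
      rw [← mul_sum, h1 x]
    rw [sum_congr rfl fun x _ => e4 x, sum_const, card_univ, nsmul_eq_mul]
  rw [h3, ← mul_assoc, inv_mul_cancel₀ hΓ, one_mul]

section

variable {E : Type} [Field E] [CharZero E]
variable {d : ℕ} (ρ : Γ →* Matrix (Fin d) (Fin d) E) (U : Subgroup Γ) (ψ : U →* Eˣ)

/-- the projector onto the `ψ`-part -/
noncomputable def pr : Matrix (Fin d) (Fin d) E :=
  (Nat.card U : E)⁻¹ • ∑ u : U, ((ψ u : E))⁻¹ • ρ u

lemma rho_pr (u : U) : ρ u * pr ρ U ψ = (ψ u : E) • pr ρ U ψ := by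
  unfold pr
  rw [mul_smul_comm, smul_comm (ψ u : E)]
  congr 1
  rw [Finset.mul_sum, Finset.smul_sum, ← Equiv.sum_comp (Equiv.mulLeft u⁻¹)]
  refine sum_congr rfl fun v _ => ?_
  have e1 : (Equiv.mulLeft u⁻¹) v = u⁻¹ * v := rfl
  have hu : (ψ u : E) ≠ 0 := (ψ u).ne_zero
  rw [e1, mul_smul_comm, ← map_mul, smul_smul]
  have e2 : (u : Γ) * ((u⁻¹ * v : U) : Γ) = v := by
    rw [Subgroup.coe_mul, Subgroup.coe_inv, mul_inv_cancel_left]
  rw [e2]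
  congr 1
  rw [map_mul, map_inv, Units.val_mul, Units.val_inv_eq_inv_val, mul_inv, inv_inv]

lemma pr_fix {x : Fin d → E} (hx : ∀ u : U, (ρ u).mulVec x = (ψ u : E) • x) :
    (pr ρ U ψ).mulVec x = x := by
  unfold pr
  rw [Matrix.smul_mulVec, Matrix.sum_mulVec]
  have h1 : ∀ u : U, (((ψ u : E))⁻¹ • ρ u).mulVec x = x := by
    intro u
    rw [Matrix.smul_mulVec, hx, smul_smul, inv_mul_cancel₀ (ψ u).ne_zero, one_smul]
  rw [sum_congr rfl fun u _ => h1 u, sum_const, card_univ, ← Nat.cast_smul_eq_nsmul E, smul_smul,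
    ← Nat.card_eq_fintype_card, inv_mul_cancel₀, one_smul]
  exact_mod_cast Nat.card_pos.ne'

lemma pr_pr : pr ρ U ψ * pr ρ U ψ = pr ρ U ψ := by
  have h0 : pr ρ U ψ * pr ρ U ψ =
      ((Nat.card U : E)⁻¹ • ∑ u : U, ((ψ u : E))⁻¹ • ρ u) * pr ρ U ψ := rfl
  rw [h0, smul_mul_assoc, Finset.sum_mul]
  have h1 : ∀ u : U, (((ψ u : E))⁻¹ • ρ u) * pr ρ U ψ = pr ρ U ψ := by
    intro u
    rw [smul_mul_assoc, rho_pr, smul_smul, inv_mul_cancel₀ (ψ u).ne_zero, one_smul]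
  rw [sum_congr rfl fun u _ => h1 u, sum_const, card_univ, ← Nat.cast_smul_eq_nsmul E, smul_smul,
    ← Nat.card_eq_fintype_card, inv_mul_cancel₀, one_smul]
  exact_mod_cast Nat.card_pos.ne'

end

variable {d : ℕ} (ρ : Γ →* Matrix (Fin d) (Fin d) ℂ) (U : Subgroup Γ) (ψ : U →* ℂˣ)

variable {θ : Matrix (Fin d) (Fin d) ℂ}

lemma pr_comm (hθ : ∀ g, θ * ρ g = ρ g * θ) : θ * pr ρ U ψ = pr ρ U ψ * θ := by
  unfold pr
  rw [mul_smul_comm, smul_mul_assoc, Finset.mul_sum, Finset.sum_mul]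
  congr 1
  refine sum_congr rfl fun u _ => ?_
  rw [mul_smul_comm, smul_mul_assoc, hθ]

lemma tr_pr (hθ : ∀ g, θ * ρ g = ρ g * θ) (k : ℕ) :
    (θ ^ k * pr ρ U ψ).trace =
      (Fintype.card Γ : ℂ)⁻¹ * ∑ g : Γ, ind U ψ g⁻¹ * (θ ^ k * ρ g).trace := by
  rw [← avg_eq U ψ (fun g => (θ ^ k * ρ g).trace)]
  · unfold pr
    rw [mul_smul_comm, Matrix.trace_smul, Finset.mul_sum, Matrix.trace_sum, smul_eq_mul]
    congr 1
    refine sum_congr rfl fun u _ => ?_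
    rw [mul_smul_comm, Matrix.trace_smul, smul_eq_mul]
  · intro x g
    have hθk : θ ^ k * ρ x = ρ x * θ ^ k := by
      have h : Commute θ (ρ x) := hθ x
      exact (h.pow_left k)
    change (θ ^ k * ρ (x * g * x⁻¹)).trace = (θ ^ k * ρ g).trace
    rw [map_mul, map_mul]
    calc (θ ^ k * (ρ x * ρ g * ρ x⁻¹)).trace = ((ρ x * (θ ^ k * ρ g)) * ρ x⁻¹).trace := by
          congr 1
          simp only [← mul_assoc]
          rw [hθk]
      _ = (ρ x⁻¹ * (ρ x * (θ ^ k * ρ g))).trace := Matrix.trace_mul_comm _ _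
      _ = (θ ^ k * ρ g).trace := by
          rw [← mul_assoc, ← map_mul, inv_mul_cancel, map_one, one_mul]

/-- `θ` on the `ψ`-part and the identity on the complement -/
noncomputable def tt (ρ : Γ →* Matrix (Fin d) (Fin d) ℂ) (θ : Matrix (Fin d) (Fin d) ℂ)
    (U : Subgroup Γ) (ψ : U →* ℂˣ) : Matrix (Fin d) (Fin d) ℂ :=
  θ * pr ρ U ψ + (1 - pr ρ U ψ)

lemma tt_pow (hθ : ∀ g, θ * ρ g = ρ g * θ) (k : ℕ) :
    (tt ρ θ U ψ) ^ k = θ ^ k * pr ρ U ψ + (1 - pr ρ U ψ) := by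
  have hp := pr_pr ρ U ψ
  have hc := pr_comm ρ U ψ hθ
  obtain ⟨p, hpd⟩ : ∃ p, p = pr ρ U ψ := ⟨_, rfl⟩
  unfold tt
  rw [← hpd] at hp hc ⊢
  have hq : (1 - p) * p = 0 := by rw [sub_mul, hp, one_mul, sub_self]
  have hq' : p * (1 - p) = 0 := by rw [mul_sub, hp, mul_one, sub_self]
  have hqq : (1 - p) * (1 - p) = 1 - p := by rw [mul_sub, hq, mul_one, sub_zero]
  induction k with
  | zero => rw [pow_zero, pow_zero, one_mul, add_sub_cancel]
  | succ k ih =>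
    rw [pow_succ, ih, add_mul, mul_add, mul_add, hqq]
    have e1 : θ ^ k * p * (θ * p) = θ ^ (k + 1) * p := by
      rw [pow_succ]
      calc θ ^ k * p * (θ * p) = θ ^ k * (p * θ) * p := by simp only [mul_assoc]
        _ = θ ^ k * θ * (p * p) := by rw [← hc]; simp only [mul_assoc]
        _ = _ := by rw [hp]
    have e2 : θ ^ k * p * (1 - p) = 0 := by rw [mul_assoc, hq', mul_zero]
    have e3 : (1 - p) * (θ * p) = 0 := by
      rw [hc, ← mul_assoc, hq, zero_mul]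
    rw [e1, e2, e3, add_zero, zero_add]

lemma tt_det_ne (hθ : ∀ g, θ * ρ g = ρ g * θ) (hdet : θ.det ≠ 0) : (tt ρ θ U ψ).det ≠ 0 := by
  have hp := pr_pr ρ U ψ
  have hc := pr_comm ρ U ψ hθ
  obtain ⟨p, hpd⟩ : ∃ p, p = pr ρ U ψ := ⟨_, rfl⟩
  unfold tt
  rw [← hpd] at hp hc ⊢
  have hu : IsUnit θ.det := isUnit_iff_ne_zero.2 hdet
  have h1 : θ * θ⁻¹ = 1 := Matrix.mul_nonsing_inv _ hu
  have h2 : θ⁻¹ * θ = 1 := Matrix.nonsing_inv_mul _ hu
  have hci : θ⁻¹ * p = p * θ⁻¹ := by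
    calc θ⁻¹ * p = θ⁻¹ * p * (θ * θ⁻¹) := by rw [h1, mul_one]
      _ = θ⁻¹ * (p * θ) * θ⁻¹ := by simp only [mul_assoc]
      _ = θ⁻¹ * (θ * p) * θ⁻¹ := by rw [hc]
      _ = (θ⁻¹ * θ) * p * θ⁻¹ := by simp only [mul_assoc]
      _ = p * θ⁻¹ := by rw [h2, one_mul]
  have hq : (1 - p) * p = 0 := by rw [sub_mul, hp, one_mul, sub_self]
  have hq' : p * (1 - p) = 0 := by rw [mul_sub, hp, mul_one, sub_self]
  have hqq : (1 - p) * (1 - p) = 1 - p := by rw [mul_sub, hq, mul_one, sub_zero]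
  have h3 : (θ * p + (1 - p)) * (θ⁻¹ * p + (1 - p)) = 1 := by
    rw [add_mul, mul_add, mul_add, hqq]
    have e1 : θ * p * (θ⁻¹ * p) = p := by
      calc θ * p * (θ⁻¹ * p) = θ * (p * θ⁻¹) * p := by simp only [mul_assoc]
        _ = (θ * θ⁻¹) * (p * p) := by rw [← hci]; simp only [mul_assoc]
        _ = p := by rw [h1, hp, one_mul]
    have e2 : θ * p * (1 - p) = 0 := by rw [mul_assoc, hq', mul_zero]
    have e3 : (1 - p) * (θ⁻¹ * p) = 0 := by rw [hci, ← mul_assoc, hq, zero_mul]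
    rw [e1, e2, e3, add_zero, zero_add, add_sub_cancel]
  intro h0
  have h4 := congrArg Matrix.det h3
  rw [Matrix.det_mul, h0, zero_mul, Matrix.det_one] at h4
  exact zero_ne_one h4

/-- **Relations of induced characters give relations of determinants.** -/
theorem rel {ι : Type} [Fintype ι] (hθ : ∀ g, θ * ρ g = ρ g * θ) (hdet : θ.det ≠ 0)
    (V : ι → Subgroup Γ) (φ : ∀ i, V i →* ℂˣ) (n : ι → ℤ)
    (h : ∀ g, ∑ i, (n i : ℂ) * ind (V i) (φ i) g = 0) :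
    ∏ i, (tt ρ θ (V i) (φ i)).det ^ (n i) = 1 := by
  have h1 : ∀ k : ℕ, ∑ i, (n i : ℂ) * (θ ^ k * pr ρ (V i) (φ i)).trace = 0 := by
    intro k
    have e1 : ∀ i, (n i : ℂ) * (θ ^ k * pr ρ (V i) (φ i)).trace =
        (Fintype.card Γ : ℂ)⁻¹ * ∑ g : Γ, ((n i : ℂ) * ind (V i) (φ i) g⁻¹) *
          (θ ^ k * ρ g).trace := by
      intro i
      rw [tr_pr ρ _ _ hθ, mul_left_comm, mul_sum]
      congr 1
      exact sum_congr rfl fun g _ => by ring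
    rw [sum_congr rfl fun i _ => e1 i, ← mul_sum, sum_comm]
    rw [sum_eq_zero, mul_zero]
    intro g _
    rw [← sum_mul, h, zero_mul]
  refine det_rel _ n ((∑ i, n i) * d) (fun i => tt_det_ne ρ _ _ hθ hdet) fun k => ?_
  have e2 : ∀ i, (n i : ℂ) * ((tt ρ θ (V i) (φ i)) ^ k).trace =
      (n i : ℂ) * (θ ^ k * pr ρ (V i) (φ i)).trace + (n i : ℂ) * d -
        (n i : ℂ) * (θ ^ 0 * pr ρ (V i) (φ i)).trace := by
    intro i
    rw [tt_pow ρ _ _ hθ, Matrix.trace_add, Matrix.trace_sub, Matrix.trace_one, Fintype.card_fin,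
      pow_zero, one_mul]
    ring
  rw [sum_congr rfl fun i _ => e2 i, sum_sub_distrib, sum_add_distrib, h1, h1, zero_add, sub_zero,
    ← sum_mul]
  push_cast
  rfl

end Pool.Agent.V8H87.EB
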