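import Pool.Agent.V8H87.EB.Q

/-!
# The statement of Q1
-/

set_option autoImplicit false

open scoped Classical

namespace Pool.Agent.V8H87.EB

open Module NumberField

/-- The data of the problem for `N/k`, with the theorems of Borel and Artin. `N` is a number field,
`k` a subfield, `Γ = Gal(N/k)`, `w > 1` is the integer called `k` in the problem. The fixed field
of `U ⊆ Γ` is denoted by `N^U`.
* `H`: the image of `ℚ ⊗ K_{2w-1}(N)` under the regulator of Borel in the space
  `V⁺` (`Vplus N w`: the elements of `⨁ ℝ(w-1)` are written as `a_τ = i^{w-1} α_τ`);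
* `form`, `stable`: `ℝ ⊗ H = V⁺`, and `H` is stable under `Γ` (Borel);
* `A`: the leading coefficients `L*(ψ, 1-w)` of the Artin `L`-functions of the characters `ψ` of the
  subgroups `U` (over the fixed field `N^U`), with the formalism of Artin;
* `borel`: the theorem of Borel for the field `F = N^U`, that is Q1 for the trivial extension `F/F`:
  `det_ℚ(H_F) = ζ_F^*(1-w) det_ℚ(B_F⁺)`. Here `H_F = H^U` (Galois descent for the rational
  `K`-groups), `B_F⁺ = (B_N⁺)^U` and `ζ_F^*(1-w) = L U 1`. -/
structure Borel (k N : Type) [Field k] [Field N] [NumberField k] [NumberField N] [Algebra k N]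
    [FiniteDimensional k N] (w : ℕ) where
  /-- the image of the rational `K`-group -/
  H : Submodule ℚ ((N →+* ℂ) → ℝ)
  form : IsForm (Vplus N w) H
  stable : ∀ γ : N ≃ₐ[k] N, ∀ α ∈ H, act right γ α ∈ H
  /-- the leading coefficients of the Artin `L`-functions -/
  A : ArtinValues (N ≃ₐ[k] N)
  borel : ∀ U : Subgroup (N ≃ₐ[k] N), Comp right ℚ U 1 stable (Bplus_stable w) A.L

variable {k N : Type} [Field k] [Field N] [NumberField k] [NumberField N] [Algebra k N]
  [FiniteDimensional k N] {w : ℕ}

/-- **Q1 for the extension `L/K`**, where `K = N^U` and `L = N^W`, `W ⊆ U` (`L/K` abelian). The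
characters of `G = Gal(L/K) = U/W` with values in a field `E` are the characters of `U` which are
trivial on `W`. All components of the equality `det(H_L) = L*(1-w) det(B_L⁺)` hold; note that
`(E ⊗ H_L)_χ = (E ⊗ H_N)_χ`, as `H_L = (H_N)^W`, and the same for `B⁺`. -/
def Q1 (D : Borel k N w) (U W : Subgroup (N ≃ₐ[k] N)) : Prop :=
  ∀ (E : Type) [Field E] [CharZero E] (χ : U →* Eˣ), (∀ u : U, (u : N ≃ₐ[k] N) ∈ W → χ u = 1) →
    Comp right E U χ D.stable (Bplus_stable w) D.A.L

/-- `Ind χ` is an integral combination of permutation characters -/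
theorem Borel.comp_perm (D : Borel k N w) (E : Type) [Field E] [CharZero E] {ι : Type} [Fintype ι]
    (W : ι → Subgroup (N ≃ₐ[k] N)) (n : ι → ℤ) (U : Subgroup (N ≃ₐ[k] N)) (χ : U →* Eˣ)
    (hχ : ∀ g, ind U χ g = ∑ i, (n i : E) * ind (W i) 1 g) :
    Comp right E U χ D.stable (Bplus_stable w) D.A.L :=
  EB.comp_perm D.A right_one right_mul D.form (Bplus_form N w) D.stable (Bplus_stable w) D.borel
    E W n U χ hχ

theorem Borel.comp_one (D : Borel k N w) (E : Type) [Field E] [CharZero E]
    (U : Subgroup (N ≃ₐ[k] N)) : Comp right E U 1 D.stable (Bplus_stable w) D.A.L :=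
  EB.comp_one D.A.L right_one right_mul D.form (Bplus_form N w) D.stable (Bplus_stable w) D.borel
    E U

theorem Borel.comp_quad (D : Borel k N w) (E : Type) [Field E] [CharZero E]
    (U : Subgroup (N ≃ₐ[k] N)) (χ : U →* Eˣ) (h2 : ∀ u, χ u * χ u = 1) :
    Comp right E U χ D.stable (Bplus_stable w) D.A.L :=
  EB.comp_quad D.A right_one right_mul D.form (Bplus_form N w) D.stable (Bplus_stable w) D.borel
    E U χ h2

theorem Borel.closure (D : Borel k N w) (E : Type) [Field E] [CharZero E] {ι : Type} [Fintype ι]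
    (W : ι → Subgroup (N ≃ₐ[k] N)) (φ : ∀ i, W i →* Eˣ) (n : ι → ℤ)
    (hφ : ∀ i, Comp right E (W i) (φ i) D.stable (Bplus_stable w) D.A.L)
    (U : Subgroup (N ≃ₐ[k] N)) (χ : U →* Eˣ)
    (hχ : ∀ g, ind U χ g = ∑ i, (n i : E) * ind (W i) (φ i) g) :
    Comp right E U χ D.stable (Bplus_stable w) D.A.L :=
  EB.closure D.A right_one right_mul D.form (Bplus_form N w) D.stable (Bplus_stable w)
    E W φ n hφ U χ hχ

end Pool.Agent.V8H87.EB
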