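import Pool.Agent.V8H87.EB.Fro
import Pool.Agent.V8H87.EB.St

/-!
# Induction in stages and inflation
-/

set_option autoImplicit false

open scoped Classical

namespace Pool.Agent.V8H87.EB

variable {Γ : Type} [Group Γ] [Fintype Γ]

lemma map_mem {M : Subgroup Γ} {U : Subgroup M} (x : Γ) :
    x ∈ U.map M.subtype ↔ ∃ hx : x ∈ M, (⟨x, hx⟩ : M) ∈ U := by
  rw [Subgroup.mem_map]
  constructor
  · rintro ⟨u, hu, rfl⟩
    exact ⟨u.2, hu⟩
  · rintro ⟨hx, hu⟩
    exact ⟨⟨x, hx⟩, hu, rfl⟩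

/-- Induction in stages. -/
lemma ind_stages {E : Type} [Field E] [CharZero E] (M : Subgroup Γ) (U' : Subgroup M)
    (χ' : U' →* Eˣ) (U : Subgroup Γ) (χ : U →* Eˣ) (hU : U = U'.map M.subtype)
    (hχ : ∀ (x : Γ) (hx : x ∈ U) (hx' : x ∈ M) (hx'' : (⟨x, hx'⟩ : M) ∈ U'),
      χ ⟨x, hx⟩ = χ' ⟨⟨x, hx'⟩, hx''⟩) (g : Γ) :
    ind U χ g = (Nat.card M : E)⁻¹ * ∑ x : Γ,
      if h : x⁻¹ * g * x ∈ M then ind U' χ' ⟨x⁻¹ * g * x, h⟩ else 0 := by
  have hM : (Nat.card M : E) ≠ 0 := Nat.cast_ne_zero.2 Nat.card_pos.ne'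
  have hcard : Nat.card U = Nat.card U' := by
    rw [hU]
    exact Nat.card_congr (U'.equivMapOfInjective M.subtype M.subtype_injective).symm.toEquiv
  have hext : ∀ y : Γ, ext U χ y = if h : y ∈ M then ext U' χ' ⟨y, h⟩ else 0 := by
    intro y
    unfold ext
    by_cases hy : y ∈ U
    · rw [dif_pos hy]
      obtain ⟨h1, h2⟩ := (map_mem y).1 (hU ▸ hy)
      rw [dif_pos h1, dif_pos h2, hχ y hy h1 h2]
    · rw [dif_neg hy]
      by_cases h1 : y ∈ M
      · rw [dif_pos h1, dif_neg]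
        intro h2
        exact hy (hU ▸ (map_mem y).2 ⟨h1, h2⟩)
      · rw [dif_neg h1]
  -- average over `M`
  have h1 : ∀ m : M, ∑ x : Γ, ext U χ (x⁻¹ * g * x) =
      ∑ x : Γ, ext U χ ((m : Γ)⁻¹ * (x⁻¹ * g * x) * m) := by
    intro m
    rw [← Equiv.sum_comp (Equiv.mulRight (m : Γ))]
    refine Finset.sum_congr rfl fun x _ => ?_
    rw [Equiv.coe_mulRight]
    congr 1
    group
  have h2 : (Nat.card M : E) * ∑ x : Γ, ext U χ (x⁻¹ * g * x) =
      ∑ x : Γ, ∑ m : M, ext U χ ((m : Γ)⁻¹ * (x⁻¹ * g * x) * m) := by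
    rw [Finset.sum_comm, ← Finset.sum_congr rfl fun m _ => h1 m, Finset.sum_const, nsmul_eq_mul,
      Finset.card_univ, ← Nat.card_eq_fintype_card]
  have h3 : ∀ x : Γ, ∑ m : M, ext U χ ((m : Γ)⁻¹ * (x⁻¹ * g * x) * m) =
      (Nat.card U : E) *
        if h : x⁻¹ * g * x ∈ M then ind U' χ' ⟨x⁻¹ * g * x, h⟩ else 0 := by
    intro x
    have hU' : (Nat.card U : E) ≠ 0 := Nat.cast_ne_zero.2 Nat.card_pos.ne'
    by_cases h : x⁻¹ * g * x ∈ M
    · rw [dif_pos h]
      unfold ind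
      rw [← hcard, ← mul_assoc, mul_inv_cancel₀ hU', one_mul]
      refine Finset.sum_congr rfl fun m _ => ?_
      rw [hext, dif_pos (mul_mem (mul_mem (inv_mem m.2) h) m.2)]
      rfl
    · rw [dif_neg h, mul_zero]
      apply Finset.sum_eq_zero
      intro m _
      rw [hext, dif_neg]
      intro h4
      apply h
      have h5 := mul_mem (mul_mem m.2 h4) (inv_mem m.2)
      have h6 : (m : Γ) * ((m : Γ)⁻¹ * (x⁻¹ * g * x) * m) * (m : Γ)⁻¹ = x⁻¹ * g * x := by group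
      rwa [h6] at h5
  rw [Finset.sum_congr rfl fun x _ => h3 x, ← Finset.mul_sum] at h2
  have hU' : (Nat.card U : E) ≠ 0 := Nat.cast_ne_zero.2 Nat.card_pos.ne'
  unfold ind at h2 ⊢
  rw [inv_mul_eq_iff_eq_mul₀ hU', ← mul_assoc, mul_comm (Nat.card U : E), mul_assoc, ← h2,
    inv_mul_cancel_left₀ hM]

/-- Inflation. -/
lemma ind_infl {E : Type} [Field E] [CharZero E] {Q : Type} [Group Q] [Fintype Q] (π : Γ →* Q)
    (hπ : Function.Surjective π) (U' : Subgroup Q) (χ' : U' →* Eˣ) (U : Subgroup Γ)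
    (χ : U →* Eˣ) (hU : U = U'.comap π)
    (hχ : ∀ (x : Γ) (hx : x ∈ U) (hx' : π x ∈ U'), χ ⟨x, hx⟩ = χ' ⟨π x, hx'⟩) (g : Γ) :
    ind U χ g = ind U' χ' (π g) := by
  have hfib : ∀ (F : Q → E), ∑ x : Γ, F (π x) = (Nat.card π.ker : E) * ∑ q : Q, F q := by
    intro F
    rw [Finset.mul_sum, ← Finset.sum_fiberwise Finset.univ π (fun x => F (π x))]
    refine Finset.sum_congr rfl fun q _ => ?_
    rw [Finset.sum_congr rfl (g := fun _ => F q) (by
      intro x hx
      rw [(Finset.mem_filter.1 hx).2]), Finset.sum_const, nsmul_eq_mul]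
    congr 2
    obtain ⟨y, rfl⟩ := hπ q
    rw [Nat.card_eq_fintype_card, Fintype.card_subtype]
    refine Finset.card_bij' (fun x _ => y⁻¹ * x) (fun z _ => y * z) ?_ ?_ ?_ ?_
    · intro x hx
      simp only [Finset.mem_filter, Finset.mem_univ, true_and] at hx ⊢
      rw [MonoidHom.mem_ker, map_mul, map_inv, hx, inv_mul_cancel]
    · intro z hz
      simp only [Finset.mem_filter, Finset.mem_univ, true_and] at hz ⊢
      rw [map_mul, MonoidHom.mem_ker.1 hz, mul_one]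
    · intro x _
      group
    · intro z _
      group
  have hker : (Nat.card π.ker : E) ≠ 0 := Nat.cast_ne_zero.2 Nat.card_pos.ne'
  have hext : ∀ y : Γ, ext U χ y = ext U' χ' (π y) := by
    intro y
    unfold ext
    by_cases hy : y ∈ U
    · have h1 : π y ∈ U' := by
        rw [hU] at hy
        exact hy
      rw [dif_pos hy, dif_pos h1, hχ y hy h1]
    · rw [dif_neg hy, dif_neg]
      intro h1
      apply hy
      rw [hU]
      exact h1
  have hcard : (Nat.card U : E) = (Nat.card π.ker : E) * Nat.card U' := by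
    have h1 := hfib (fun q => if q ∈ U' then 1 else 0)
    have h2 : ∑ x : Γ, (if π x ∈ U' then (1 : E) else 0) = Nat.card U := by
      rw [Finset.sum_boole, Nat.card_eq_fintype_card, Fintype.card_subtype]
      congr 2
      ext x
      simp [hU]
    have h3 : ∑ q : Q, (if q ∈ U' then (1 : E) else 0) = Nat.card U' := by
      rw [Finset.sum_boole, Nat.card_eq_fintype_card, Fintype.card_subtype]
    rw [h2, h3] at h1
    exact h1
  have h4 := hfib (fun q => ext U' χ' (q⁻¹ * π g * q))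
  unfold ind
  rw [hcard, mul_inv, mul_comm (Nat.card π.ker : E)⁻¹, mul_assoc]
  congr 1
  rw [inv_mul_eq_iff_eq_mul₀ hker, ← h4]
  refine Finset.sum_congr rfl fun x _ => ?_
  rw [hext, map_mul, map_mul, map_inv]

/-- The subgroup `U` is the inverse image of the translations under a surjective homomorphism of a
subgroup `M` of `Γ` onto a sharply 2-transitive group `Q`, with kernel contained in `D`. -/
def AffineTower (U D : Subgroup Γ) : Prop :=
  ∃ (M : Subgroup Γ) (Q : Type) (_ : Group Q) (_ : Fintype Q) (π : M →* Q) (C H : Subgroup Q),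
    Function.Surjective π ∧ SharplyTwo C H ∧ U = (C.comap π).map M.subtype ∧
      π.ker.map M.subtype ≤ D

theorem AffineTower.ind {E : Type} [Field E] [CharZero E] {U : Subgroup Γ} {χ : U →* Eˣ}
    (h : AffineTower U (χ.ker.map U.subtype)) (hχ : χ ≠ 1) :
    ∃ H M : Subgroup Γ, ∀ g, EB.ind U χ g = EB.ind H (1 : _ →* Eˣ) g - EB.ind M (1 : _ →* Eˣ) g := by
  obtain ⟨M, Q, _, _, π, C, H, hπ, hs, hU, hker⟩ := h
  refine ⟨(H.comap π).map M.subtype, ((⊤ : Subgroup Q).comap π).map M.subtype, fun g => ?_⟩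
  -- the character of `C`
  have hmem : ∀ m : M, π m ∈ C → (m : Γ) ∈ U := by
    intro m hm
    rw [hU]
    exact (map_mem _).2 ⟨m.2, hm⟩
  have hfac : ∀ (m m' : M) (hm : π m ∈ C) (hm' : π m' ∈ C), π m = π m' →
      χ ⟨m, hmem m hm⟩ = χ ⟨m', hmem m' hm'⟩ := by
    intro m m' hm hm' he
    have h1 : ((m⁻¹ * m' : M) : Γ) ∈ π.ker.map M.subtype :=
      (map_mem _).2 ⟨(m⁻¹ * m').2, by
        change π (m⁻¹ * m') = 1
        rw [map_mul, map_inv, he, inv_mul_cancel]⟩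
    obtain ⟨h2, h3⟩ := (map_mem _).1 (hker h1)
    have h4 : (⟨((m⁻¹ * m' : M) : Γ), h2⟩ : U) = (⟨m, hmem m hm⟩ : U)⁻¹ * ⟨m', hmem m' hm'⟩ := rfl
    rw [MonoidHom.mem_ker, h4, map_mul, map_inv] at h3
    exact inv_mul_eq_one.1 h3
  choose s hs' using hπ
  have hsC : ∀ c : C, π (s c) ∈ C := fun c => by rw [hs']; exact c.2
  let χ' : C →* Eˣ :=
    { toFun := fun c => χ ⟨s c, hmem _ (hsC c)⟩
      map_one' := by
        have h1 : π 1 ∈ C := by rw [map_one]; exact one_mem C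
        rw [hfac (s (1 : C)) 1 (hsC 1) h1 (by rw [hs']; simp)]
        exact map_one χ
      map_mul' := by
        intro a b
        have h1 : π (s a * s b) ∈ C := by rw [map_mul, hs', hs']; exact mul_mem a.2 b.2
        rw [hfac (s ((a * b : C) : Q)) (s a * s b) (hsC (a * b)) h1
          (by rw [hs', map_mul, hs', hs']; rfl), ← map_mul]
        rfl }
  have hχ' : ∀ (m : M) (hm : π m ∈ C), χ ⟨m, hmem m hm⟩ = χ' ⟨π m, hm⟩ := by
    intro m hm
    exact hfac m (s (π m)) hm (by rw [hs']; exact hm) (by rw [hs'])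
  have hχ'1 : χ' ≠ 1 := by
    intro h1
    apply hχ
    ext ⟨x, hx⟩
    obtain ⟨h2, h3⟩ := (map_mem x).1 (hU ▸ hx)
    have h4 := hχ' ⟨x, h2⟩ h3
    rw [h1] at h4
    exact congrArg Units.val h4
  have key : ∀ q : Q, EB.ind C χ' q = EB.ind H (1 : _ →* Eˣ) q - EB.ind ⊤ (1 : _ →* Eˣ) q := by
    intro q
    have := hs.ind_eq C le_rfl χ' hχ'1 q
    rwa [Subgroup.relIndex_self, Nat.cast_one, one_mul] at this
  have e1 := ind_stages M (C.comap π) (χ'.comp ((π.comp (C.comap π).subtype).codRestrict C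
      (fun x => x.2))) U χ hU (by
    intro x hx hx' hx''
    exact hχ' ⟨x, hx'⟩ hx'') g
  have e2 := ind_stages M (H.comap π) (1 : _ →* Eˣ) ((H.comap π).map M.subtype) (1 : _ →* Eˣ) rfl
    (fun _ _ _ _ => rfl) g
  have e3 := ind_stages M ((⊤ : Subgroup Q).comap π) (1 : _ →* Eˣ)
    (((⊤ : Subgroup Q).comap π).map M.subtype) (1 : _ →* Eˣ) rfl (fun _ _ _ _ => rfl) g
  rw [e1, e2, e3, ← mul_sub, ← Finset.sum_sub_distrib]
  congr 1
  refine Finset.sum_congr rfl fun x _ => ?_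
  by_cases h : x⁻¹ * g * x ∈ M
  · have hπ' : Function.Surjective π := fun q => ⟨s q, hs' q⟩
    rw [dif_pos h, dif_pos h, dif_pos h,
      ind_infl π hπ' C χ' (C.comap π) _ rfl (fun _ _ _ => rfl),
      ind_infl π hπ' H (1 : _ →* Eˣ) (H.comap π) _ rfl (fun _ _ _ => rfl),
      ind_infl π hπ' ⊤ (1 : _ →* Eˣ) ((⊤ : Subgroup Q).comap π) _ rfl (fun _ _ _ => rfl), key]
  · rw [dif_neg h, dif_neg h, dif_neg h, sub_zero]

end Pool.Agent.V8H87.EB
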