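import Pool.Agent.V8H87.EB.Core

/-!
# The components of Q1 are closed under relations between induced characters
-/

set_option autoImplicit false

open scoped Classical

namespace Pool.Agent.V8H87.EB

open Finset Matrix Module

set_option linter.unusedSectionVars false

variable {S Γ : Type} [Group Γ] {R : Γ → S → S} {H B : Submodule ℚ (S → ℝ)} {d : ℕ}

/-- the action on `H` -/
def actH (hH : ∀ γ, ∀ α ∈ H, act R γ α ∈ H) (γ : Γ) : H →ₗ[ℚ] H where
  toFun α := ⟨act R γ α, hH γ α α.2⟩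
  map_add' _ _ := rfl
  map_smul' _ _ := rfl

lemma mat_eq (h : Basis (Fin d) ℚ H) (hH : ∀ γ, ∀ α ∈ H, act R γ α ∈ H) (γ : Γ) :
    mat R h hH γ = LinearMap.toMatrix h h (actH hH γ) := by
  ext i j
  rw [LinearMap.toMatrix_apply]
  rfl

/-- the matrices of the action as a homomorphism -/
noncomputable def matHom (hR1 : ∀ τ, R 1 τ = τ) (hR : ∀ γ γ' τ, R (γ * γ') τ = R γ' (R γ τ))
    (h : Basis (Fin d) ℚ H) (hH : ∀ γ, ∀ α ∈ H, act R γ α ∈ H) :
    Γ →* Matrix (Fin d) (Fin d) ℚ where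
  toFun γ := mat R h hH γ
  map_one' := by
    have e : actH hH (1 : Γ) = LinearMap.id := by
      ext α τ
      change (α : S → ℝ) (R 1 τ) = (α : S → ℝ) τ
      rw [hR1]
    rw [mat_eq, e, LinearMap.toMatrix_id]
  map_mul' γ γ' := by
    have e : actH hH (γ * γ') = actH hH γ ∘ₗ actH hH γ' := by
      ext α τ
      change (α : S → ℝ) (R (γ * γ') τ) = (α : S → ℝ) (R γ' (R γ τ))
      rw [hR]
    rw [mat_eq, mat_eq, mat_eq, e, LinearMap.toMatrix_comp h h h]

/-- the matrices over `E` -/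
noncomputable def homE (E : Type) [Field E] [CharZero E] (ρ : Γ →* Matrix (Fin d) (Fin d) ℚ) :
    Γ →* Matrix (Fin d) (Fin d) E :=
  (RingHom.toMonoidHom (RingHom.mapMatrix (algebraMap ℚ E))).comp ρ

lemma homE_apply (E : Type) [Field E] [CharZero E] (ρ : Γ →* Matrix (Fin d) (Fin d) ℚ) (γ : Γ) :
    (ρ γ).map (algebraMap ℚ E) = homE E ρ γ := rfl

lemma part_eq (hR1 : ∀ τ, R 1 τ = τ) (hR : ∀ γ γ' τ, R (γ * γ') τ = R γ' (R γ τ))
    (h : Basis (Fin d) ℚ H) (hH : ∀ γ, ∀ α ∈ H, act R γ α ∈ H) (E : Type) [Field E] [CharZero E]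
    (U : Subgroup Γ) (χ : U →* Eˣ) :
    part R h E U χ hH = mpart (homE E (matHom hR1 hR h hH)) U χ := rfl

lemma act_basis (h : Basis (Fin d) ℚ H) (hH : ∀ γ, ∀ α ∈ H, act R γ α ∈ H) (γ : Γ) (j : Fin d)
    (τ : S) : act R γ (h j) τ = ∑ i, ((mat R h hH γ i j : ℚ) : ℝ) * (h i : S → ℝ) τ := by
  have h1 := congrArg (fun v : H => (v : S → ℝ) τ) (h.sum_repr ⟨act R γ (h j), hH γ _ (h j).2⟩)
  simp only at h1
  rw [AddSubmonoidClass.coe_finsetSum, Finset.sum_apply] at h1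
  refine h1.symm.trans (sum_congr rfl fun i _ => ?_)
  rw [Submodule.coe_smul, Pi.smul_apply, Rat.smul_def]
  rfl

variable {V : Submodule ℝ (S → ℝ)}

lemma basis_indep (hV : IsForm V H) (h : Basis (Fin d) ℚ H) :
    LinearIndependent ℝ (fun i => (h i : S → ℝ)) := by
  refine hV.indep d _ (fun i => (h i).2) ?_
  exact h.linearIndependent.map' H.subtype (by simp)

lemma indR (hV : IsForm V H) (h : Basis (Fin d) ℚ H) {c c' : Fin d → ℝ}
    (hc : ∀ τ, ∑ i, c i * (h i : S → ℝ) τ = ∑ i, c' i * (h i : S → ℝ) τ) : c = c' := by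
  have h1 := basis_indep hV h
  funext i
  have h2 : ∑ i, (c i - c' i) • (h i : S → ℝ) = 0 := by
    funext τ
    rw [Finset.sum_apply]
    simp only [Pi.smul_apply, smul_eq_mul, sub_mul]
    rw [sum_sub_distrib, hc, sub_self]
    rfl
  exact sub_eq_zero.1 (Fintype.linearIndependent_iff.1 h1 _ h2 i)

lemma indC (hV : IsForm V H) (h : Basis (Fin d) ℚ H) {c c' : Fin d → ℂ}
    (hc : ∀ τ, ∑ i, c i * (((h i : S → ℝ) τ : ℝ) : ℂ) = ∑ i, c' i * (((h i : S → ℝ) τ : ℝ) : ℂ)) :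
    c = c' := by
  have hre : (fun i => (c i).re) = fun i => (c' i).re := by
    refine indR hV h fun τ => ?_
    have h1 := congrArg Complex.re (hc τ)
    simpa using h1
  have him : (fun i => (c i).im) = fun i => (c' i).im := by
    refine indR hV h fun τ => ?_
    have h1 := congrArg Complex.im (hc τ)
    simpa using h1
  funext i
  exact Complex.ext (congrFun hre i) (congrFun him i)

/-- the transition matrix -/
lemma exists_trans (hH : IsForm V H) (hB : IsForm V B) (h : Basis (Fin d) ℚ H)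
    (b : Basis (Fin d) ℚ B) :
    ∃ P : Matrix (Fin d) (Fin d) ℝ, P.det ≠ 0 ∧
      ∀ j τ, (h j : S → ℝ) τ = ∑ i, P i j * (b i : S → ℝ) τ := by
  have key : ∀ {H B : Submodule ℚ (S → ℝ)} (_ : IsForm V H) (_ : IsForm V B)
      (h : Basis (Fin d) ℚ H) (b : Basis (Fin d) ℚ B), ∃ P : Matrix (Fin d) (Fin d) ℝ,
      ∀ j τ, (h j : S → ℝ) τ = ∑ i, P i j * (b i : S → ℝ) τ := by
    intro H B hH hB h b
    have h1 : ∀ j, ∃ c : Fin d → ℝ, ∑ i, c i • (b i : S → ℝ) = (h j : S → ℝ) := by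
      intro j
      rw [← Submodule.mem_span_range_iff_exists_fun ℝ]
      have h2 : (h j : S → ℝ) ∈ V := by
        rw [← hH.span]
        exact Submodule.subset_span (h j).2
      rw [← hB.span] at h2
      refine (Submodule.span_le.2 ?_) h2
      intro β hβ
      have h3 := congrArg (fun v : B => (v : S → ℝ)) (b.sum_repr ⟨β, hβ⟩)
      simp only at h3
      rw [AddSubmonoidClass.coe_finsetSum] at h3
      rw [SetLike.mem_coe, ← h3]
      refine Submodule.sum_mem _ fun i _ => ?_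
      have h4 : (((b.repr ⟨β, hβ⟩ i • b i : B) : S → ℝ)) =
          ((b.repr ⟨β, hβ⟩ i : ℚ) : ℝ) • (b i : S → ℝ) := by
        funext τ
        rw [Submodule.coe_smul, Pi.smul_apply, Pi.smul_apply, Rat.smul_def, smul_eq_mul]
      rw [h4]
      exact Submodule.smul_mem _ _ (Submodule.subset_span ⟨i, rfl⟩)
    choose c hc using h1
    refine ⟨fun i j => c j i, fun j τ => ?_⟩
    have h5 := congrFun (hc j) τ
    rw [Finset.sum_apply] at h5
    simpa using h5.symm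
  obtain ⟨P, hP⟩ := key hH hB h b
  obtain ⟨Q, hQ⟩ := key hB hH b h
  refine ⟨P, fun h0 => ?_, hP⟩
  have h1 : Q * P = 1 := by
    ext l j
    have h2 : (fun l => (Q * P) l j) = fun l => (1 : Matrix (Fin d) (Fin d) ℝ) l j := by
      refine indR hH h fun τ => ?_
      have e1 : ∑ l, (1 : Matrix (Fin d) (Fin d) ℝ) l j * (h l : S → ℝ) τ = (h j : S → ℝ) τ := by
        rw [sum_eq_single j]
        · rw [Matrix.one_apply_eq, one_mul]
        · intro l _ hl
          rw [Matrix.one_apply_ne hl, zero_mul]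
        · exact fun hn => absurd (mem_univ _) hn
      rw [e1, hP j τ]
      have e2 : ∀ i, P i j * (b i : S → ℝ) τ = ∑ l, (Q l i * P i j) * (h l : S → ℝ) τ := by
        intro i
        rw [hQ i τ, mul_sum]
        exact sum_congr rfl fun l _ => by ring
      rw [sum_congr rfl fun i _ => e2 i, sum_comm]
      refine sum_congr rfl fun l _ => ?_
      rw [Matrix.mul_apply, sum_mul]
    exact congrFun h2 l
  have h3 := congrArg Matrix.det h1
  rw [Matrix.det_mul, h0, mul_zero, Matrix.det_one] at h3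
  exact zero_ne_one h3

lemma trans_comm (hB' : IsForm V B) {h : Basis (Fin d) ℚ H} {b : Basis (Fin d) ℚ B}
    (hH : ∀ γ, ∀ α ∈ H, act R γ α ∈ H) (hB : ∀ γ, ∀ α ∈ B, act R γ α ∈ B)
    {P : Matrix (Fin d) (Fin d) ℝ} (hP : ∀ j τ, (h j : S → ℝ) τ = ∑ i, P i j * (b i : S → ℝ) τ)
    (γ : Γ) : P * (mat R h hH γ).map (algebraMap ℚ ℝ) = (mat R b hB γ).map (algebraMap ℚ ℝ) * P := by
  ext l j
  have h2 : (fun l => (P * (mat R h hH γ).map (algebraMap ℚ ℝ)) l j) =
      fun l => ((mat R b hB γ).map (algebraMap ℚ ℝ) * P) l j := by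
    refine indR hB' b fun τ => ?_
    have e1 : act R γ (h j) τ =
        ∑ l, (P * (mat R h hH γ).map (algebraMap ℚ ℝ)) l j * (b l : S → ℝ) τ := by
      rw [act_basis h hH]
      have e2 : ∀ i, ((mat R h hH γ i j : ℚ) : ℝ) * (h i : S → ℝ) τ =
          ∑ l, (P l i * ((mat R h hH γ i j : ℚ) : ℝ)) * (b l : S → ℝ) τ := by
        intro i
        rw [hP i τ, mul_sum]
        exact sum_congr rfl fun l _ => by ring
      rw [sum_congr rfl fun i _ => e2 i, sum_comm]
      refine sum_congr rfl fun l _ => ?_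
      rw [Matrix.mul_apply, sum_mul]
      rfl
    have e3 : act R γ (h j) τ =
        ∑ l, ((mat R b hB γ).map (algebraMap ℚ ℝ) * P) l j * (b l : S → ℝ) τ := by
      have e4 : act R γ (h j) τ = ∑ i, P i j * act R γ (b i) τ := hP j (R γ τ)
      rw [e4]
      have e5 : ∀ i, P i j * act R γ (b i) τ =
          ∑ l, (((mat R b hB γ l i : ℚ) : ℝ) * P i j) * (b l : S → ℝ) τ := by
        intro i
        rw [act_basis b hB, mul_sum]
        exact sum_congr rfl fun l _ => by ring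
      rw [sum_congr rfl fun i _ => e5 i, sum_comm]
      refine sum_congr rfl fun l _ => ?_
      rw [Matrix.mul_apply, sum_mul]
      rfl
    rw [← e1, ← e3]
  exact congrFun h2 l

/-- the relation in the definition of `Comp` as an equation of matrices -/
lemma ev_iff {E : Type} [Field E] {m : ℕ} (hB' : IsForm V B) {h : Basis (Fin d) ℚ H}
    {b : Basis (Fin d) ℚ B} {P : Matrix (Fin d) (Fin d) ℝ}
    (hP : ∀ j τ, (h j : S → ℝ) τ = ∑ i, P i j * (b i : S → ℝ) τ)
    {Q Q' : Submodule E (Fin d → E)} (x : Basis (Fin m) E Q) (y : Basis (Fin m) E Q')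
    (σ : E →+* ℂ) (D : Matrix (Fin m) (Fin m) ℂ) :
    (∀ i, ev h σ (x i) = ∑ j, D i j • ev b σ (y j)) ↔
      P.map (algebraMap ℝ ℂ) * (bmat x).map σ = (bmat y).map σ * Dᵀ := by
  have h1 : ∀ i τ, ev h σ (x i) τ =
      ∑ l, (P.map (algebraMap ℝ ℂ) * (bmat x).map σ) l i * (((b l : S → ℝ) τ : ℝ) : ℂ) := by
    intro i τ
    unfold ev
    have e1 : ∀ j, σ ((x i : Fin d → E) j) * (((h j : S → ℝ) τ : ℝ) : ℂ) =
        ∑ l, (((P l j : ℝ) : ℂ) * σ ((x i : Fin d → E) j)) * (((b l : S → ℝ) τ : ℝ) : ℂ) := by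
      intro j
      rw [hP j τ]
      push_cast
      rw [mul_sum]
      exact sum_congr rfl fun l _ => by ring
    rw [sum_congr rfl fun j _ => e1 j, sum_comm]
    refine sum_congr rfl fun l _ => ?_
    rw [Matrix.mul_apply, sum_mul]
    rfl
  have h2 : ∀ i τ, (∑ j, D i j • ev b σ (y j)) τ =
      ∑ l, ((bmat y).map σ * Dᵀ) l i * (((b l : S → ℝ) τ : ℝ) : ℂ) := by
    intro i τ
    rw [Finset.sum_apply]
    have e1 : ∀ j, (D i j • ev b σ (y j)) τ =
        ∑ l, (σ ((y j : Fin d → E) l) * D i j) * (((b l : S → ℝ) τ : ℝ) : ℂ) := by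
      intro j
      rw [Pi.smul_apply, smul_eq_mul]
      unfold ev
      rw [mul_sum]
      exact sum_congr rfl fun l _ => by ring
    rw [sum_congr rfl fun j _ => e1 j, sum_comm]
    refine sum_congr rfl fun l _ => ?_
    rw [Matrix.mul_apply, sum_mul]
    rfl
  constructor
  · intro hx
    ext l i
    have h3 : (fun l => (P.map (algebraMap ℝ ℂ) * (bmat x).map σ) l i) =
        fun l => ((bmat y).map σ * Dᵀ) l i := by
      refine indC hB' b fun τ => ?_
      rw [← h1, ← h2, hx]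
    exact congrFun h3 l
  · intro hx i
    funext τ
    rw [h1, h2, hx]

variable [Fintype Γ]

/-- The component of Q1 for given bases of `H` and `B`. -/
def CompAt {B : Submodule ℚ (S → ℝ)} (h : Basis (Fin d) ℚ H) (b : Basis (Fin d) ℚ B)
    (hH : ∀ γ, ∀ α ∈ H, act R γ α ∈ H) (hB : ∀ γ, ∀ α ∈ B, act R γ α ∈ B)
    (L : (U : Subgroup Γ) → (U →* ℂˣ) → ℂ) (E : Type) [Field E] [CharZero E] (U : Subgroup Γ)
    (χ : U →* Eˣ) : Prop :=
  ∃ (m : ℕ) (x : Basis (Fin m) E (part R h E U χ hH)) (y : Basis (Fin m) E (part R b E U χ hB))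
      (e : E), e ≠ 0 ∧ ∀ σ : E →+* ℂ, ∃ D : Matrix (Fin m) (Fin m) ℂ,
        (∀ i, ev h σ (x i) = ∑ j, D i j • ev b σ (y j)) ∧ D.det = σ e * L U (cinv σ χ)

/-- The components of Q1 in terms of one endomorphism `θ`. -/
theorem key (L : (U : Subgroup Γ) → (U →* ℂˣ) → ℂ) (hR1 : ∀ τ, R 1 τ = τ)
    (hR : ∀ γ γ' τ, R (γ * γ') τ = R γ' (R γ τ)) (hVH : IsForm V H) (hVB : IsForm V B)
    (hH : ∀ γ, ∀ α ∈ H, act R γ α ∈ H) (hB : ∀ γ, ∀ α ∈ B, act R γ α ∈ B)
    (h : Basis (Fin d) ℚ H) (b : Basis (Fin d) ℚ B) :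
    ∃ (ρ : Γ →* Matrix (Fin d) (Fin d) ℂ) (θ : Matrix (Fin d) (Fin d) ℂ),
      (∀ g, θ * ρ g = ρ g * θ) ∧ θ.det ≠ 0 ∧
      ∀ (E : Type) [Field E] [CharZero E] (U : Subgroup Γ) (χ : U →* Eˣ),
        CompAt h b hH hB L E U χ ↔ ∃ q : E, q ≠ 0 ∧ ∀ σ : E →+* ℂ,
          (tt ρ θ U ((Units.map (σ : E →* ℂ)).comp χ)).det = σ q * L U (cinv σ χ) := by
  obtain ⟨P, hPdet, hP⟩ := exists_trans hVH hVB h b
  obtain ⟨T, hT, hTc⟩ := exists_rat (fun γ => mat R h hH γ) (fun γ => mat R b hB γ) P hPdet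
    (trans_comm hVB hH hB hP)
  have hTu : IsUnit T.det := isUnit_iff_ne_zero.2 hT
  have hQR : ∀ M : Matrix (Fin d) (Fin d) ℚ, (M.map (algebraMap ℚ ℝ)).map (algebraMap ℝ ℂ) =
      M.map (algebraMap ℚ ℂ) := by
    intro M
    ext i j
    simp
  set PC : Matrix (Fin d) (Fin d) ℂ := P.map (algebraMap ℝ ℂ) with hPC
  set TC : Matrix (Fin d) (Fin d) ℂ := T.map (algebraMap ℚ ℂ) with hTC
  set TI : Matrix (Fin d) (Fin d) ℂ := (T⁻¹).map (algebraMap ℚ ℂ) with hTI
  have hTT : TC * TI = 1 := by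
    rw [hTC, hTI, ← Matrix.map_mul, Matrix.mul_nonsing_inv _ hTu,
      Matrix.map_one _ (map_zero _) (map_one _)]
  have hTT' : TI * TC = 1 := by
    rw [hTC, hTI, ← Matrix.map_mul, Matrix.nonsing_inv_mul _ hTu,
      Matrix.map_one _ (map_zero _) (map_one _)]
  set θ : Matrix (Fin d) (Fin d) ℂ := PC * TI with hθd
  have hPθ : PC = θ * TC := by rw [hθd, mul_assoc, hTT', mul_one]
  set ρh := matHom hR1 hR h hH with hρh
  set ρb := matHom hR1 hR b hB with hρb
  have hPc : ∀ g, PC * homE ℂ ρh g = homE ℂ ρb g * PC := by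
    intro g
    have h1 := congrArg (fun M => M.map (algebraMap ℝ ℂ)) (trans_comm hVB hH hB hP g)
    simp only [Matrix.map_mul, hQR] at h1
    exact h1
  have hTcC : ∀ g, TC * homE ℂ ρh g = homE ℂ ρb g * TC := by
    intro g
    have h1 := congrArg (fun M => M.map (algebraMap ℚ ℂ)) (hTc g)
    simp only [Matrix.map_mul] at h1
    exact h1
  have hθ : ∀ g, θ * homE ℂ ρb g = homE ℂ ρb g * θ := by
    intro g
    have h1 : TI * homE ℂ ρb g = homE ℂ ρh g * TI := by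
      calc TI * homE ℂ ρb g = TI * homE ℂ ρb g * (TC * TI) := by rw [hTT, mul_one]
        _ = TI * (homE ℂ ρb g * TC) * TI := by simp only [mul_assoc]
        _ = TI * (TC * homE ℂ ρh g) * TI := by rw [hTcC]
        _ = (TI * TC) * homE ℂ ρh g * TI := by simp only [mul_assoc]
        _ = homE ℂ ρh g * TI := by rw [hTT', one_mul]
    calc θ * homE ℂ ρb g = PC * (TI * homE ℂ ρb g) := by rw [hθd, mul_assoc]
      _ = PC * homE ℂ ρh g * TI := by rw [h1, mul_assoc]
      _ = homE ℂ ρb g * θ := by rw [hPc, hθd, mul_assoc]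
  have hPCdet : PC.det ≠ 0 := by
    have e : PC.det = algebraMap ℝ ℂ P.det := (RingHom.map_det (algebraMap ℝ ℂ) P).symm
    rw [e]
    simpa using hPdet
  have hθdet : θ.det ≠ 0 := by
    intro h0
    apply hPCdet
    rw [hPθ, Matrix.det_mul, h0, zero_mul]
  refine ⟨homE ℂ ρb, θ, hθ, hθdet, ?_⟩
  intro E _ _ U χ
  have comp := fun (m : ℕ)
      (x : Basis (Fin m) E (mpart (homE E ρh) U χ)) (y : Basis (Fin m) E (mpart (homE E ρb) U χ)) =>
    comparison ρh ρb T hT hTc (homE E ρh) (homE E ρb) (homE_apply E ρh) (homE_apply E ρb)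
      (homE ℂ ρb) (homE_apply ℂ ρb) PC θ hPθ hθ U χ x y
  constructor
  · rintro ⟨m, x, y, e, he, hD⟩
    obtain ⟨a, ha, hσ⟩ := comp m x y
    refine ⟨e / a, div_ne_zero he ha, fun σ => ?_⟩
    obtain ⟨D, hD1, hD2⟩ := hD σ
    obtain ⟨D0, hD01, hD02, hD03⟩ := hσ σ
    have h1 := (ev_iff hVB hP x y σ D).1 hD1
    have h2 := hD03 _ h1
    have h3 : D0.det = D.det := by rw [← h2, Matrix.det_transpose]
    have ha' : σ a ≠ 0 := by simpa using ha
    rw [h3, hD2] at hD02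
    rw [map_div₀, div_mul_eq_mul_div, hD02, mul_div_cancel_left₀ _ ha']
  · rintro ⟨q, hq0, hq⟩
    obtain ⟨m, y⟩ : ∃ m, Nonempty (Basis (Fin m) E (mpart (homE E ρb) U χ)) :=
      ⟨_, ⟨Module.finBasis E _⟩⟩
    obtain ⟨y⟩ := y
    have hx : Nonempty (Basis (Fin m) E (mpart (homE E ρh) U χ)) := by
      set TE : Matrix (Fin d) (Fin d) E := T.map (algebraMap ℚ E) with hTE
      set TJ : Matrix (Fin d) (Fin d) E := (T⁻¹).map (algebraMap ℚ E) with hTJ
      have hEE : TE * TJ = 1 := by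
        rw [hTE, hTJ, ← Matrix.map_mul, Matrix.mul_nonsing_inv _ hTu,
          Matrix.map_one _ (map_zero _) (map_one _)]
      have hEE' : TJ * TE = 1 := by
        rw [hTE, hTJ, ← Matrix.map_mul, Matrix.nonsing_inv_mul _ hTu,
          Matrix.map_one _ (map_zero _) (map_one _)]
      have hc1 : ∀ g, TE * homE E ρh g = homE E ρb g * TE := by
        intro g
        have h1 := congrArg (fun M => M.map (algebraMap ℚ E)) (hTc g)
        simp only [Matrix.map_mul] at h1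
        exact h1
      have hc2 : ∀ g, TJ * homE E ρb g = homE E ρh g * TJ := by
        intro g
        calc TJ * homE E ρb g = TJ * homE E ρb g * (TE * TJ) := by rw [hEE, mul_one]
          _ = TJ * (homE E ρb g * TE) * TJ := by simp only [mul_assoc]
          _ = TJ * (TE * homE E ρh g) * TJ := by rw [hc1]
          _ = (TJ * TE) * homE E ρh g * TJ := by simp only [mul_assoc]
          _ = homE E ρh g * TJ := by rw [hEE', one_mul]
      refine ⟨y.map (LinearEquiv.ofLinearMap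
        (LinearMap.restrict (Matrix.mulVecLin TJ) (p := mpart (homE E ρb) U χ)
          (q := mpart (homE E ρh) U χ) ?_)
        (LinearMap.restrict (Matrix.mulVecLin TE) (p := mpart (homE E ρh) U χ)
          (q := mpart (homE E ρb) U χ) ?_) ?_ ?_)⟩
      · intro v hv u
        rw [Matrix.mulVecLin_apply, Matrix.mulVec_mulVec, ← hc2, ← Matrix.mulVec_mulVec, hv u,
          Matrix.mulVec_smul]
      · intro v hv u
        rw [Matrix.mulVecLin_apply, Matrix.mulVec_mulVec, ← hc1, ← Matrix.mulVec_mulVec, hv u,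
          Matrix.mulVec_smul]
      · apply LinearMap.ext
        intro v
        apply Subtype.ext
        change TJ.mulVec (TE.mulVec (v : Fin d → E)) = v
        rw [Matrix.mulVec_mulVec, hEE', Matrix.one_mulVec]
      · apply LinearMap.ext
        intro v
        apply Subtype.ext
        change TE.mulVec (TJ.mulVec (v : Fin d → E)) = v
        rw [Matrix.mulVec_mulVec, hEE, Matrix.one_mulVec]
    obtain ⟨x⟩ := hx
    obtain ⟨a, ha, hσ⟩ := comp m x y
    refine ⟨m, x, y, a * q, mul_ne_zero ha hq0, fun σ => ?_⟩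
    obtain ⟨D0, hD01, hD02, -⟩ := hσ σ
    refine ⟨D0ᵀ, (ev_iff hVB hP x y σ D0ᵀ).2 (by rw [Matrix.transpose_transpose]; exact hD01), ?_⟩
    rw [Matrix.det_transpose, hD02, map_mul, mul_assoc, hq σ]

/-- A larger field of coefficients. -/
theorem comp_map (L : (U : Subgroup Γ) → (U →* ℂˣ) → ℂ) (hR1 : ∀ τ, R 1 τ = τ)
    (hR : ∀ γ γ' τ, R (γ * γ') τ = R γ' (R γ τ)) (hVH : IsForm V H) (hVB : IsForm V B)
    (hH : ∀ γ, ∀ α ∈ H, act R γ α ∈ H) (hB : ∀ γ, ∀ α ∈ B, act R γ α ∈ B)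
    {E F : Type} [Field E] [CharZero E] [Field F] [CharZero F] (f : E →+* F) {U : Subgroup Γ}
    {χ : U →* Eˣ} (hE : Comp R E U χ hH hB L) :
    Comp R F U ((Units.map (f : E →* F)).comp χ) hH hB L := by
  intro d h b
  obtain ⟨ρ, θ, -, -, hk⟩ := key L hR1 hR hVH hVB hH hB h b
  obtain ⟨q, hq0, hq⟩ := (hk E U χ).1 (hE d h b)
  refine (hk F U _).2 ⟨f q, by simpa using hq0, fun σ => ?_⟩
  exact hq (σ.comp f)

/-- **Q1 is closed under the integral relations between induced characters.** If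
`Ind χ = ∑ n_i Ind χ_i` and the components of Q1 at the `χ_i` hold then the component at `χ` holds. -/
theorem closure (A : ArtinValues Γ) (hR1 : ∀ τ, R 1 τ = τ)
    (hR : ∀ γ γ' τ, R (γ * γ') τ = R γ' (R γ τ)) (hVH : IsForm V H) (hVB : IsForm V B)
    (hH : ∀ γ, ∀ α ∈ H, act R γ α ∈ H) (hB : ∀ γ, ∀ α ∈ B, act R γ α ∈ B)
    (E : Type) [Field E] [CharZero E] {ι : Type} [Fintype ι] (W : ι → Subgroup Γ)
    (φ : ∀ i, W i →* Eˣ) (n : ι → ℤ) (hφ : ∀ i, Comp R E (W i) (φ i) hH hB A.L)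
    (U : Subgroup Γ) (χ : U →* Eˣ) (hχ : ∀ g, ind U χ g = ∑ i, (n i : E) * ind (W i) (φ i) g) :
    Comp R E U χ hH hB A.L := by
  intro d h b
  obtain ⟨ρ, θ, hθ, hθdet, hk⟩ := key A.L hR1 hR hVH hVB hH hB h b
  have hknown : ∀ i, ∃ q : E, q ≠ 0 ∧ ∀ σ : E →+* ℂ,
      (tt ρ θ (W i) ((Units.map (σ : E →* ℂ)).comp (φ i))).det =
        σ q * A.L (W i) (cinv σ (φ i)) := fun i => (hk E (W i) (φ i)).1 (hφ i d h b)
  choose q hq0 hq using hknown
  refine (hk E U χ).2 ⟨∏ i, q i ^ (n i), prod_ne_zero_iff.2 fun i _ =>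
    zpow_ne_zero _ (hq0 i), fun σ => ?_⟩
  -- the relation
  let W' : Option ι → Subgroup Γ := fun o => o.elim U W
  let n' : Option ι → ℤ := fun o => o.elim (-1) n
  let φ' : ∀ o, W' o →* ℂˣ := fun o => match o with
    | none => (Units.map (σ : E →* ℂ)).comp χ
    | some i => (Units.map (σ : E →* ℂ)).comp (φ i)
  let φ'' : ∀ o, W' o →* ℂˣ := fun o => match o with
    | none => cinv σ χ
    | some i => cinv σ (φ i)
  have hrelσ : ∀ g, ∑ o : Option ι, (n' o : ℂ) * ind (W' o) (φ' o) g = 0 := by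
    intro g
    rw [Fintype.sum_option]
    change ((-1 : ℤ) : ℂ) * ind U ((Units.map (σ : E →* ℂ)).comp χ) g +
      ∑ i, (n i : ℂ) * ind (W i) ((Units.map (σ : E →* ℂ)).comp (φ i)) g = 0
    rw [ind_map, hχ, map_sum]
    simp_rw [ind_map, map_mul, map_intCast]
    push_cast
    ring
  have hrelσ' : ∀ g, ∑ o : Option ι, (n' o : ℂ) * ind (W' o) (φ'' o) g = 0 := by
    intro g
    have h1 := hrelσ g⁻¹
    rw [Fintype.sum_option] at h1 ⊢
    change ((-1 : ℤ) : ℂ) * ind U ((Units.map (σ : E →* ℂ)).comp χ) g⁻¹ +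
      ∑ i, (n i : ℂ) * ind (W i) ((Units.map (σ : E →* ℂ)).comp (φ i)) g⁻¹ = 0 at h1
    change ((-1 : ℤ) : ℂ) * ind U (cinv σ χ) g + ∑ i, (n i : ℂ) * ind (W i) (cinv σ (φ i)) g = 0
    have e1 : ∀ (U : Subgroup Γ) (χ : U →* Eˣ), ind U (cinv σ χ) g =
        ind U ((Units.map (σ : E →* ℂ)).comp χ) g⁻¹ := by
      intro U χ
      unfold cinv
      rw [ind_map, ind_map, ind_inv]
    simp_rw [e1]
    exact h1
  have h1 : ∏ o, (tt ρ θ (W' o) (φ' o)).det ^ (n' o) = 1 :=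
    rel ρ hθ hθdet _ _ _ hrelσ
  have h2 : ∏ o, A.L (W' o) (φ'' o) ^ (n' o) = 1 := A.artin _ _ _ _ hrelσ'
  rw [Fintype.prod_option] at h1 h2
  change (tt ρ θ U ((Units.map (σ : E →* ℂ)).comp χ)).det ^ (-1 : ℤ) *
    ∏ i, (tt ρ θ (W i) ((Units.map (σ : E →* ℂ)).comp (φ i))).det ^ (n i) = 1 at h1
  change A.L U (cinv σ χ) ^ (-1 : ℤ) * ∏ i, A.L (W i) (cinv σ (φ i)) ^ (n i) = 1 at h2
  rw [_root_.zpow_neg, _root_.zpow_one] at h1 h2
  have ht0 := tt_det_ne ρ U ((Units.map (σ : E →* ℂ)).comp χ) hθ hθdet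
  have hL0 := A.ne_zero U (cinv σ χ)
  rw [inv_mul_eq_one₀ ht0] at h1
  rw [inv_mul_eq_one₀ hL0] at h2
  rw [h1, h2, map_prod, ← prod_mul_distrib]
  refine prod_congr rfl fun i _ => ?_
  rw [hq i σ, map_zpow₀, mul_zpow]

end Pool.Agent.V8H87.EB
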