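import Mathlib

/-!
# Real and rational intertwiners
-/

set_option autoImplicit false

namespace Pool.Agent.V8H87.EB

open Finset Matrix Module

/-- If two families of rational matrices are conjugate by a real matrix then they are conjugate by a
rational matrix. -/
theorem exists_rat {Γ : Type} {d : ℕ} (A B : Γ → Matrix (Fin d) (Fin d) ℚ)
    (P : Matrix (Fin d) (Fin d) ℝ) (hP : P.det ≠ 0)
    (hAB : ∀ g, P * (A g).map (algebraMap ℚ ℝ) = (B g).map (algebraMap ℚ ℝ) * P) :
    ∃ T : Matrix (Fin d) (Fin d) ℚ, T.det ≠ 0 ∧ ∀ g, T * A g = B g * T := by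
  classical
  set F : Submodule ℚ ℝ := Submodule.span ℚ (Set.range fun ij : Fin d × Fin d => P ij.1 ij.2) with hF
  have : FiniteDimensional ℚ F := FiniteDimensional.span_of_finite ℚ (Set.finite_range _)
  set s := finrank ℚ F with hs
  let β : Basis (Fin s) ℚ F := Module.finBasis ℚ F
  have hmem : ∀ a b, P a b ∈ F := fun a b => Submodule.subset_span ⟨(a, b), rfl⟩
  let c : Fin s → Matrix (Fin d) (Fin d) ℚ := fun j a b => β.repr ⟨P a b, hmem a b⟩ j
  have hexp : ∀ a b, P a b = ∑ j, ((c j a b : ℚ) : ℝ) * (β j : ℝ) := by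
    intro a b
    have h1 := congrArg (Subtype.val) (β.sum_repr ⟨P a b, hmem a b⟩)
    rw [AddSubmonoidClass.coe_finsetSum] at h1
    refine h1.symm.trans (sum_congr rfl fun j _ => ?_)
    rw [Submodule.coe_smul, Rat.smul_def]
  have hind : ∀ q : Fin s → ℚ, ∑ j, (q j : ℝ) * (β j : ℝ) = 0 → ∀ j, q j = 0 := by
    intro q hq
    have h1 : ∑ j, q j • β j = 0 := by
      apply Subtype.ext
      rw [AddSubmonoidClass.coe_finsetSum, ZeroMemClass.coe_zero, ← hq]
      refine sum_congr rfl fun j _ => ?_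
      rw [Submodule.coe_smul, Rat.smul_def]
    exact Fintype.linearIndependent_iff.1 β.linearIndependent q h1
  have hcomm : ∀ j g, c j * A g = B g * c j := by
    intro j g
    ext a b
    have h1 := congrFun (congrFun (hAB g) a) b
    rw [Matrix.mul_apply, Matrix.mul_apply] at h1
    have h2 : ∑ j, (((c j * A g) a b - (B g * c j) a b : ℚ) : ℝ) * (β j : ℝ) = 0 := by
      have e1 : ∀ j, (((c j * A g) a b - (B g * c j) a b : ℚ) : ℝ) * (β j : ℝ) =
          ∑ l, (((c j a l : ℚ) : ℝ) * (β j : ℝ)) * (((A g) l b : ℚ) : ℝ) -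
          ∑ l, (((B g) a l : ℚ) : ℝ) * (((c j l b : ℚ) : ℝ) * (β j : ℝ)) := by
        intro j
        rw [Matrix.mul_apply, Matrix.mul_apply]
        push_cast
        rw [sub_mul, sum_mul, sum_mul]
        congr 1
        · exact sum_congr rfl fun l _ => by ring
        · exact sum_congr rfl fun l _ => by ring
      rw [sum_congr rfl fun j _ => e1 j, sum_sub_distrib, sum_comm, sum_comm (f := fun j l =>
        (((B g) a l : ℚ) : ℝ) * (((c j l b : ℚ) : ℝ) * (β j : ℝ)))]
      simp_rw [← sum_mul, ← mul_sum, ← hexp]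
      rw [sub_eq_zero]
      exact h1
    have h3 := hind (fun j => (c j * A g) a b - (B g * c j) a b) h2 j
    exact sub_eq_zero.1 h3
  -- the polynomial
  let M : Matrix (Fin d) (Fin d) (MvPolynomial (Fin s) ℚ) := fun a b =>
    ∑ j, MvPolynomial.C (c j a b) * MvPolynomial.X j
  have hM : ∀ (R : Type) [CommRing R] [Algebra ℚ R] (x : Fin s → R),
      MvPolynomial.aeval x M.det = (Matrix.of fun a b => ∑ j, algebraMap ℚ R (c j a b) * x j).det := by
    intro R _ _ x
    rw [AlgHom.map_det]
    congr 1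
    ext a b
    change MvPolynomial.aeval x (M a b) = _
    simp [M]
  have hne : M.det ≠ 0 := by
    intro h0
    have h1 := hM ℝ (fun j => (β j : ℝ))
    rw [h0, map_zero] at h1
    apply hP
    rw [h1]
    congr 1
    ext a b
    rw [Matrix.of_apply, hexp a b]
    rfl
  obtain ⟨q, hq⟩ : ∃ q : Fin s → ℚ, MvPolynomial.eval q M.det ≠ 0 := by
    by_contra hcon
    push Not at hcon
    exact hne (MvPolynomial.funext fun q => by rw [hcon q, map_zero])
  refine ⟨∑ j, q j • c j, ?_, fun g => ?_⟩
  · have h1 := hM ℚ q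
    have h2 : MvPolynomial.aeval q M.det = MvPolynomial.eval q M.det := by
      rw [MvPolynomial.aeval_eq_eval]
    have h3 : (Matrix.of fun a b => ∑ j, algebraMap ℚ ℚ (c j a b) * q j) = ∑ j, q j • c j := by
      ext a b
      rw [Matrix.of_apply, Matrix.sum_apply]
      refine sum_congr rfl fun j _ => ?_
      rw [Matrix.smul_apply, smul_eq_mul, mul_comm]
      rfl
    rw [← h3, ← h1, h2]
    exact hq
  · rw [Finset.sum_mul, Finset.mul_sum]
    refine sum_congr rfl fun j _ => ?_
    rw [smul_mul_assoc, hcomm, mul_smul_comm]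

end Pool.Agent.V8H87.EB
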