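import Pool.Agent.V8H87.EB.Avg
import Pool.Agent.V8H87.EB.Rat

/-!
# The determinant of the comparison on the parts
-/

set_option autoImplicit false

open scoped Classical

namespace Pool.Agent.V8H87.EB

open Finset Matrix Module

/-! ### Matrix form -/

section Mat

variable {Γ : Type} [Group Γ] [Fintype Γ] {d m : ℕ}

/-- the `χ`-part of a matrix representation -/
def mpart {E : Type} [Field E] (ρ : Γ →* Matrix (Fin d) (Fin d) E) (U : Subgroup Γ) (χ : U →* Eˣ) :
    Submodule E (Fin d → E) where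
  carrier := {x | ∀ u : U, (ρ u).mulVec x = (χ u : E) • x}
  add_mem' := by
    intro x y hx hy u
    rw [Matrix.mulVec_add, hx u, hy u, smul_add]
  zero_mem' := by
    intro u
    rw [Matrix.mulVec_zero, smul_zero]
  smul_mem' := by
    intro c x hx u
    rw [Matrix.mulVec_smul, hx u, smul_comm]

/-- the matrix of a basis of the part -/
noncomputable def bmat {E : Type} [Field E] {Q : Submodule E (Fin d → E)} (y : Basis (Fin m) E Q) :
    Matrix (Fin d) (Fin m) E := fun l j => (y j : Fin d → E) l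

lemma bmat_col {E : Type} [Field E] {Q : Submodule E (Fin d → E)} (y : Basis (Fin m) E Q)
    (j : Fin m) : (fun l => bmat y l j) = (y j : Fin d → E) := rfl

lemma bmat_inj {E : Type} [Field E] {Q : Submodule E (Fin d → E)} (y : Basis (Fin m) E Q) {r : ℕ}
    {A B : Matrix (Fin m) (Fin r) E} (h : bmat y * A = bmat y * B) : A = B := by
  ext j k
  have h1 : ∑ i, (A i k - B i k) • y i = 0 := by
    apply Subtype.ext
    rw [AddSubmonoidClass.coe_finsetSum, ZeroMemClass.coe_zero]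
    funext l
    have h2 := congrFun (congrFun h l) k
    rw [Matrix.mul_apply, Matrix.mul_apply] at h2
    rw [Finset.sum_apply]
    have e : ∀ i, ((((A i k - B i k) • y i : Q) : Fin d → E)) l =
        bmat y l i * A i k - bmat y l i * B i k := by
      intro i
      rw [Submodule.coe_smul, Pi.smul_apply, smul_eq_mul]
      change (A i k - B i k) * bmat y l i = _
      ring
    rw [sum_congr rfl fun i _ => e i, sum_sub_distrib, h2, sub_self]
    rfl
  have h3 := Fintype.linearIndependent_iff.1 y.linearIndependent (fun i => A i k - B i k) h1 j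
  exact sub_eq_zero.1 h3

lemma bmat_exists {E : Type} [Field E] {Q : Submodule E (Fin d → E)} (y : Basis (Fin m) E Q) {r : ℕ}
    (Z : Matrix (Fin d) (Fin r) E) (hZ : ∀ k, (fun l => Z l k) ∈ Q) :
    ∃ A : Matrix (Fin m) (Fin r) E, Z = bmat y * A := by
  refine ⟨fun j k => y.repr ⟨fun l => Z l k, hZ k⟩ j, ?_⟩
  ext l k
  have h1 := congrArg (fun v : Q => (v : Fin d → E) l) (y.sum_repr ⟨fun l => Z l k, hZ k⟩)
  simp only at h1
  rw [AddSubmonoidClass.coe_finsetSum, Finset.sum_apply] at h1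
  refine h1.symm.trans ?_
  change _ = ∑ j, bmat y l j * y.repr ⟨fun l => Z l k, hZ k⟩ j
  refine sum_congr rfl fun j _ => ?_
  rw [Submodule.coe_smul, Pi.smul_apply, smul_eq_mul, mul_comm]
  rfl

/-- the splitting of the projector -/
lemma pr_split {E : Type} [Field E] [CharZero E] (ρ : Γ →* Matrix (Fin d) (Fin d) E)
    (U : Subgroup Γ) (χ : U →* Eˣ) (y : Basis (Fin m) E (mpart ρ U χ)) :
    ∃ L : Matrix (Fin m) (Fin d) E, pr ρ U χ = bmat y * L ∧ L * bmat y = 1 := by
  obtain ⟨L, hL⟩ := bmat_exists y (pr ρ U χ) (by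
    intro k u
    have h1 := rho_pr ρ U χ u
    funext l
    have h2 := congrFun (congrFun h1 l) k
    rw [Matrix.mul_apply] at h2
    exact h2)
  refine ⟨L, hL, ?_⟩
  apply bmat_inj y
  rw [← Matrix.mul_assoc, ← hL, Matrix.mul_one]
  ext l j
  have h3 := pr_fix ρ U χ (x := (y j : Fin d → E)) (fun u => (y j).2 u)
  exact congrFun h3 l

lemma pr_map {E F : Type} [Field E] [CharZero E] [Field F] [CharZero F] (σ : E →+* F)
    (ρ : Γ →* Matrix (Fin d) (Fin d) E) (ρ' : Γ →* Matrix (Fin d) (Fin d) F)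
    (hρ : ∀ g, (ρ g).map σ = ρ' g) (U : Subgroup Γ) (χ : U →* Eˣ) :
    (pr ρ U χ).map σ = pr ρ' U ((Units.map (σ : E →* F)).comp χ) := by
  ext a b
  unfold pr
  rw [Matrix.map_apply, Matrix.smul_apply, Matrix.smul_apply, smul_eq_mul, smul_eq_mul, map_mul,
    map_inv₀, map_natCast, Matrix.sum_apply, Matrix.sum_apply, map_sum]
  congr 1
  refine sum_congr rfl fun u _ => ?_
  rw [Matrix.smul_apply, Matrix.smul_apply, smul_eq_mul, smul_eq_mul, map_mul, map_inv₀, ← hρ,
    Matrix.map_apply]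
  rfl

/-- the determinant of `θ` on the part -/
lemma det_part {ρ : Γ →* Matrix (Fin d) (Fin d) ℂ} {U : Subgroup Γ} {ψ : U →* ℂˣ}
    {θ : Matrix (Fin d) (Fin d) ℂ} (hθ : ∀ g, θ * ρ g = ρ g * θ) {Y : Matrix (Fin d) (Fin m) ℂ}
    {L : Matrix (Fin m) (Fin d) ℂ} (h1 : pr ρ U ψ = Y * L) (h2 : L * Y = 1) :
    θ * Y = Y * (L * θ * Y) ∧ (L * θ * Y).det = (tt ρ θ U ψ).det := by
  have h3 : pr ρ U ψ * Y = Y := by rw [h1, Matrix.mul_assoc, h2, Matrix.mul_one]
  constructor
  · calc θ * Y = θ * (pr ρ U ψ * Y) := by rw [h3]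
      _ = pr ρ U ψ * θ * Y := by rw [← Matrix.mul_assoc, pr_comm ρ U ψ hθ]
      _ = Y * (L * θ * Y) := by rw [h1]; simp only [Matrix.mul_assoc]
  · have e1 : tt ρ θ U ψ = 1 + ((θ - 1) * Y) * L := by
      unfold tt
      rw [h1]
      rw [Matrix.sub_mul, Matrix.one_mul, Matrix.sub_mul, Matrix.mul_assoc]
      abel
    rw [e1, Matrix.det_one_add_mul_comm]
    congr 1
    rw [Matrix.sub_mul, Matrix.one_mul, Matrix.mul_sub, h2, Matrix.mul_assoc]
    abel

/-- **The comparison on the parts.** -/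
theorem comparison {E : Type} [Field E] [CharZero E]
    (ρh ρb : Γ →* Matrix (Fin d) (Fin d) ℚ) (T : Matrix (Fin d) (Fin d) ℚ) (hT : T.det ≠ 0)
    (hTc : ∀ g, T * ρh g = ρb g * T) (ρhE ρbE : Γ →* Matrix (Fin d) (Fin d) E)
    (hh : ∀ g, (ρh g).map (algebraMap ℚ E) = ρhE g) (hb : ∀ g, (ρb g).map (algebraMap ℚ E) = ρbE g)
    (ρC : Γ →* Matrix (Fin d) (Fin d) ℂ) (hC : ∀ g, (ρb g).map (algebraMap ℚ ℂ) = ρC g)
    (P θ : Matrix (Fin d) (Fin d) ℂ) (hP : P = θ * T.map (algebraMap ℚ ℂ))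
    (hθ : ∀ g, θ * ρC g = ρC g * θ)
    (U : Subgroup Γ) (χ : U →* Eˣ) (x : Basis (Fin m) E (mpart ρhE U χ))
    (y : Basis (Fin m) E (mpart ρbE U χ)) :
    ∃ a : E, a ≠ 0 ∧ ∀ σ : E →+* ℂ, ∃ D0 : Matrix (Fin m) (Fin m) ℂ,
      P * (bmat x).map σ = (bmat y).map σ * D0 ∧
      D0.det = σ a * (tt ρC θ U ((Units.map (σ : E →* ℂ)).comp χ)).det ∧
      ∀ D, P * (bmat x).map σ = (bmat y).map σ * D → D = D0 := by
  have hTu : IsUnit T.det := isUnit_iff_ne_zero.2 hT
  set TE : Matrix (Fin d) (Fin d) E := T.map (algebraMap ℚ E) with hTE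
  set TI : Matrix (Fin d) (Fin d) E := (T⁻¹).map (algebraMap ℚ E) with hTI
  have hTT : TE * TI = 1 := by
    rw [hTE, hTI, ← Matrix.map_mul, Matrix.mul_nonsing_inv _ hTu,
      Matrix.map_one _ (map_zero _) (map_one _)]
  have hTT' : TI * TE = 1 := by
    rw [hTE, hTI, ← Matrix.map_mul, Matrix.nonsing_inv_mul _ hTu,
      Matrix.map_one _ (map_zero _) (map_one _)]
  have hTE1 : ∀ g, TE * ρhE g = ρbE g * TE := by
    intro g
    rw [← hh, ← hb, hTE, ← Matrix.map_mul, ← Matrix.map_mul, hTc]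
  have hTI1 : ∀ g, TI * ρbE g = ρhE g * TI := by
    intro g
    calc TI * ρbE g = TI * ρbE g * (TE * TI) := by rw [hTT, Matrix.mul_one]
      _ = TI * (ρbE g * TE) * TI := by simp only [Matrix.mul_assoc]
      _ = TI * (TE * ρhE g) * TI := by rw [hTE1]
      _ = (TI * TE) * ρhE g * TI := by simp only [Matrix.mul_assoc]
      _ = ρhE g * TI := by rw [hTT', Matrix.one_mul]
  obtain ⟨A, hA⟩ := bmat_exists y (TE * bmat x) (by
    intro k u
    have h1 : (ρbE (u : Γ)).mulVec (TE.mulVec (x k : Fin d → E)) =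
        (χ u : E) • TE.mulVec (x k : Fin d → E) := by
      rw [Matrix.mulVec_mulVec, ← hTE1, ← Matrix.mulVec_mulVec, (x k).2 u, Matrix.mulVec_smul]
    exact h1)
  obtain ⟨A', hA'⟩ := bmat_exists x (TI * bmat y) (by
    intro k u
    have h1 : (ρhE (u : Γ)).mulVec (TI.mulVec (y k : Fin d → E)) =
        (χ u : E) • TI.mulVec (y k : Fin d → E) := by
      rw [Matrix.mulVec_mulVec, ← hTI1, ← Matrix.mulVec_mulVec, (y k).2 u, Matrix.mulVec_smul]
    exact h1)
  have hAA : A * A' = 1 := by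
    apply bmat_inj y
    rw [← Matrix.mul_assoc, ← hA, Matrix.mul_assoc, ← hA', ← Matrix.mul_assoc, hTT, Matrix.one_mul, Matrix.mul_one]
  obtain ⟨L, hL1, hL2⟩ := pr_split ρbE U χ y
  refine ⟨A.det, ?_, fun σ => ?_⟩
  · intro h0
    have h1 := congrArg Matrix.det hAA
    rw [Matrix.det_mul, h0, zero_mul, Matrix.det_one] at h1
    exact zero_ne_one h1
  · have hσ : ∀ q : ℚ, σ (algebraMap ℚ E q) = algebraMap ℚ ℂ q := fun q => by simp
    have hρσ : ∀ g, (ρbE g).map σ = ρC g := by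
      intro g
      rw [← hb, ← hC]
      ext i j
      rw [Matrix.map_apply, Matrix.map_apply, Matrix.map_apply, hσ]
    have h1 : pr ρC U ((Units.map (σ : E →* ℂ)).comp χ) = (bmat y).map σ * L.map σ := by
      rw [← pr_map σ ρbE ρC hρσ U χ, hL1, Matrix.map_mul]
    have h2 : L.map σ * (bmat y).map σ = 1 := by
      rw [← Matrix.map_mul, hL2, Matrix.map_one _ (map_zero _) (map_one _)]
    obtain ⟨h3, h4⟩ := det_part hθ h1 h2
    have h5 : P * (bmat x).map σ =
        (bmat y).map σ * ((L.map σ * θ * (bmat y).map σ) * A.map σ) := by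
      have e1 : TE.map σ = T.map (algebraMap ℚ ℂ) := by
        ext i j
        rw [hTE, Matrix.map_apply, Matrix.map_apply, Matrix.map_apply, hσ]
      rw [hP, ← e1, Matrix.mul_assoc, ← Matrix.map_mul, hA, Matrix.map_mul, ← Matrix.mul_assoc, h3]
      simp only [Matrix.mul_assoc]
    refine ⟨(L.map σ * θ * (bmat y).map σ) * A.map σ, h5, ?_, fun D hD => ?_⟩
    · rw [Matrix.det_mul, h4, mul_comm]
      congr 1
      exact (RingHom.map_det σ A).symm
    · have h7 : ∀ M : Matrix (Fin m) (Fin m) ℂ, L.map σ * ((bmat y).map σ * M) = M := fun M => by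
        rw [← Matrix.mul_assoc, h2, Matrix.one_mul]
      rw [← h7 D, ← hD, h5, h7]

end Mat

end Pool.Agent.V8H87.EB
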