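import Mathlib

/-!
# The equivariant conjecture of Beilinson for the groups `K_{2w-1}`: definitions

`N/k` is a Galois extension of number fields with the group `Γ = Gal(N/k)`, `w > 1` is an integer
(called `k` in the problem). The intermediate fields are the fixed fields of the subgroups of `Γ`.
If `W ⊆ U` are subgroups, `W` normal in `U` and `U / W` abelian, then `L = N^W` is an abelian extension
of `K = N^U`, and the characters of `Gal(L/K) = U / W` are the characters of `U` which are trivial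
on `W`.
-/

set_option autoImplicit false

open scoped Classical

namespace Pool.Agent.V8H87.EB

open Module

section Lin

/-! ### Real vector spaces with two rational structures -/

variable {S : Type} {Γ : Type} [Group Γ]

/-- `Γ` acts on the set `S` from the right, and on the real functions on `S` by
`(γ α)(τ) = α (τ γ)`; `R` is the right action: `R γ τ = τ γ`. -/
def act (R : Γ → S → S) (γ : Γ) (α : S → ℝ) : S → ℝ := fun τ => α (R γ τ)

/-- `H` is a rational structure of the real vector space `V` of functions on `S`: it spans `V` over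
`ℝ`, and elements which are linearly independent over `ℚ` are linearly independent over `ℝ`
(`ℝ ⊗_ℚ H = V`). -/
structure IsForm (V : Submodule ℝ (S → ℝ)) (H : Submodule ℚ (S → ℝ)) : Prop where
  span : Submodule.span ℝ (H : Set (S → ℝ)) = V
  indep : ∀ (d : ℕ) (f : Fin d → (S → ℝ)), (∀ i, f i ∈ H) → LinearIndependent ℚ f →
    LinearIndependent ℝ f

variable (R : Γ → S → S) {H : Submodule ℚ (S → ℝ)} {d : ℕ} (h : Basis (Fin d) ℚ H)
variable (E : Type) [Field E] [CharZero E] (U : Subgroup Γ) (χ : U →* Eˣ)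

/-- The matrix of `γ` in the `ℚ`-basis `h` of `H` (`H` is stable under `Γ`): the coordinates of
`γ h_j` are in the column number `j`. -/
noncomputable def mat (hH : ∀ γ, ∀ α ∈ H, act R γ α ∈ H) (γ : Γ) : Matrix (Fin d) (Fin d) ℚ :=
  fun i j => h.repr ⟨act R γ (h j), hH γ _ (h j).2⟩ i

/-- The `χ`-part `(E ⊗_ℚ H)_χ`: an element of `E ⊗_ℚ H` is written as the vector of its coordinates
with respect to the `ℚ`-basis `h` of `H`; the elements `u` of `U` act on it as `χ u`. -/
def part (hH : ∀ γ, ∀ α ∈ H, act R γ α ∈ H) : Submodule E (Fin d → E) where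
  carrier := {x | ∀ u : U, ((mat R h hH (u : Γ)).map (algebraMap ℚ E)).mulVec x = (χ u : E) • x}
  add_mem' := by
    intro x y hx hy u
    rw [Matrix.mulVec_add, hx u, hy u, smul_add]
  zero_mem' := by
    intro u
    rw [Matrix.mulVec_zero, smul_zero]
  smul_mem' := by
    intro c x hx u
    rw [Matrix.mulVec_smul, hx u, smul_comm]

/-- The image of the element `∑ x_j ⊗ h_j` of `E ⊗_ℚ H` under `σ : E → ℂ`: the function
`τ ↦ ∑ σ(x_j) h_j(τ)`, an element of `ℂ ⊗_ℝ V`. -/
noncomputable def ev {E : Type} [Field E] (σ : E →+* ℂ) (x : Fin d → E) : S → ℂ :=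
  fun τ => ∑ j, σ (x j) * (((h j : S → ℝ) τ : ℝ) : ℂ)

/-- The character `σ ∘ χ⁻¹`. -/
def cinv {E : Type} [Field E] {U : Subgroup Γ} (σ : E →+* ℂ) (χ : U →* Eˣ) : U →* ℂˣ :=
  (Units.map (σ : E →* ℂ)).comp χ⁻¹

/-- The character `χ` of `U`, continued to `Γ` by zero. -/
noncomputable def ext {E : Type} [Field E] (U : Subgroup Γ) (χ : U →* Eˣ) (g : Γ) : E :=
  if hg : g ∈ U then (χ ⟨g, hg⟩ : E) else 0

/-- The induced character, a function on `Γ`. -/
noncomputable def ind [Fintype Γ] {E : Type} [Field E] (U : Subgroup Γ) (χ : U →* Eˣ) (g : Γ) : E :=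
  (Nat.card U : E)⁻¹ * ∑ x : Γ, ext U χ (x⁻¹ * g * x)

/-- **The `χ`-component of Q1**, for `χ : U → E^×` and the numbers `L(U, ψ)` (`= L*(ψ, 1 - w)`, see
below): in `∧^m (ℂ ⊗ V)`
`x_1 ∧ ⋯ ∧ x_m = σ(e) L(U, σ∘χ⁻¹) y_1 ∧ ⋯ ∧ y_m` for all embeddings `σ : E → ℂ`, with one element
`e ≠ 0` of `E` and bases `x` of `(E ⊗ H)_χ`, `y` of `(E ⊗ B)_χ` (written with a transition
matrix `D`); `h` and `b` are any `ℚ`-bases of `H` and `B`. In other words,
`(det H)_χ = L*(χ⁻¹) (det B)_χ` in the `χ`-component `E ⊗ ℝ` of `ℝ[G]`. -/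
def Comp {B : Submodule ℚ (S → ℝ)} (hH : ∀ γ, ∀ α ∈ H, act R γ α ∈ H)
    (hB : ∀ γ, ∀ α ∈ B, act R γ α ∈ B) (L : (U : Subgroup Γ) → (U →* ℂˣ) → ℂ) : Prop :=
  ∀ (d : ℕ) (h : Basis (Fin d) ℚ H) (b : Basis (Fin d) ℚ B),
    ∃ (m : ℕ) (x : Basis (Fin m) E (part R h E U χ hH)) (y : Basis (Fin m) E (part R b E U χ hB))
      (e : E), e ≠ 0 ∧ ∀ σ : E →+* ℂ, ∃ D : Matrix (Fin m) (Fin m) ℂ,
        (∀ i, ev h σ (x i) = ∑ j, D i j • ev b σ (y j)) ∧ D.det = σ e * L U (cinv σ χ)

/-- Leading coefficients with the formalism of Artin: for `U ⊆ Γ` and `ψ : U → ℂ^×` let `L U ψ` be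
the leading coefficient `L*(ψ, 1 - w)` of the Artin `L`-function of the character `ψ` of
`Gal(N / N^U)`. They are not zero, and since Artin `L`-functions are additive and inductive, every
integral relation between induced characters gives a multiplicative relation. -/
structure ArtinValues (Γ : Type) [Group Γ] [Fintype Γ] where
  /-- the leading coefficients -/
  L : (U : Subgroup Γ) → (U →* ℂˣ) → ℂ
  ne_zero : ∀ U ψ, L U ψ ≠ 0
  artin : ∀ (ι : Type) [Fintype ι] (V : ι → Subgroup Γ) (φ : ∀ i, V i →* ℂˣ) (n : ι → ℤ),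
    (∀ g : Γ, ∑ i, (n i : ℂ) * ind (V i) (φ i) g = 0) → ∏ i, L (V i) (φ i) ^ (n i) = 1

end Lin

end Pool.Agent.V8H87.EB
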