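import Pool.Agent.V8H87.EB.Q

/-!
# Sharply 2-transitive groups
-/

set_option autoImplicit false

open scoped Classical

namespace Pool.Agent.V8H87.EB

/-- `Γ = C ⋊ H`, where `C` is abelian and `H` acts simply transitively on `C ∖ {1}` (`|H| = |C| - 1`
and `H` acts transitively): `Γ` is a sharply 2-transitive group of affine transformations of `C`. -/
structure SharplyTwo {Γ : Type} [Group Γ] (C H : Subgroup Γ) : Prop where
  normal : C.Normal
  comm : ∀ a ∈ C, ∀ b ∈ C, a * b = b * a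
  compl : C.IsComplement' H
  card : Nat.card H + 1 = Nat.card C
  trans : ∀ a ∈ C, a ≠ 1 → ∀ b ∈ C, b ≠ 1 → ∃ h ∈ H, h⁻¹ * a * h = b

namespace SharplyTwo

variable {Γ : Type} [Group Γ] [Fintype Γ] {C H : Subgroup Γ} (hs : SharplyTwo C H)

include hs

/-- the map `h ↦ h⁻¹ a h` from `H` to `C ∖ {1}` -/
def cj (a : Γ) (ha : a ∈ C) (h1 : a ≠ 1) (h : H) : {c : C // c ≠ 1} :=
  ⟨⟨(h : Γ)⁻¹ * a * h, by
    have := hs.normal.conj_mem a ha (h : Γ)⁻¹
    rwa [inv_inv] at this⟩, by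
    intro h2
    apply h1
    have h3 := congrArg Subtype.val h2
    change (h : Γ)⁻¹ * a * h = 1 at h3
    calc a = (h : Γ) * ((h : Γ)⁻¹ * a * h) * (h : Γ)⁻¹ := by group
      _ = 1 := by rw [h3]; group⟩

lemma cj_bij (a : Γ) (ha : a ∈ C) (h1 : a ≠ 1) : Function.Bijective (hs.cj a ha h1) := by
  rw [Fintype.bijective_iff_surjective_and_card]
  constructor
  · rintro ⟨⟨c, hc⟩, hc1⟩
    obtain ⟨h, hh, he⟩ := hs.trans a ha h1 c hc (fun h => hc1 (Subtype.ext h))
    exact ⟨⟨h, hh⟩, Subtype.ext (Subtype.ext he)⟩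
  · have h2 := hs.card
    rw [Nat.card_eq_fintype_card, Nat.card_eq_fintype_card] at h2
    have h3 : Fintype.card {c : C // c ≠ 1} = Fintype.card C - 1 := by
      rw [Fintype.card_subtype_compl, Fintype.card_subtype_eq]
    omega

lemma free {a : Γ} (ha : a ∈ C) {h : Γ} (hh : h ∈ H) (hne : h ≠ 1) (he : h⁻¹ * a * h = a) :
    a = 1 := by
  by_contra h1
  apply hne
  have h2 := (hs.cj_bij a ha h1).1 (a₁ := ⟨h, hh⟩) (a₂ := 1)
    (Subtype.ext (Subtype.ext (by
      change h⁻¹ * a * h = (1 : Γ)⁻¹ * a * 1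
      rw [he]
      group)))
  exact congrArg Subtype.val h2

lemma inter {x : Γ} (hC : x ∈ C) (hH : x ∈ H) : x = 1 :=
  Subgroup.disjoint_def.1 hs.compl.disjoint hC hH

/-- the number of `c` with `c⁻¹ g c ∈ H` -/
lemma count (g : Γ) : (∑ c : C, if (c : Γ)⁻¹ * g * c ∈ H then 1 else 0) =
    if g = 1 then Nat.card C else if g ∈ C then 0 else 1 := by
  by_cases h1 : g = 1
  · rw [if_pos h1, h1]
    simp only [mul_one, inv_mul_cancel, one_mem, if_true]
    simp [Nat.card_eq_fintype_card]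
  rw [if_neg h1]
  by_cases hC : g ∈ C
  · rw [if_pos hC]
    apply Finset.sum_eq_zero
    intro c _
    rw [if_neg]
    intro h2
    have h3 : (c : Γ)⁻¹ * g * c = g := by
      rw [mul_assoc, hs.comm g hC c c.2, inv_mul_cancel_left]
    rw [h3] at h2
    exact h1 (hs.inter hC h2)
  · rw [if_neg hC]
    obtain ⟨⟨⟨c₀, hc₀⟩, ⟨h₀, hh₀⟩⟩, hg⟩ := hs.compl.2 g
    change c₀ * h₀ = g at hg
    have hne : h₀ ≠ 1 := by
      rintro rfl
      apply hC
      rw [← hg, mul_one]
      exact hc₀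
    have hmemC : ∀ c : C, (c : Γ) * h₀ * (c : Γ)⁻¹ * h₀⁻¹ ∈ C := by
      intro c
      have := mul_mem c.2 (hs.normal.conj_mem _ (inv_mem c.2) h₀)
      simpa [mul_assoc] using this
    let f : C → C := fun c => ⟨(c : Γ) * h₀ * (c : Γ)⁻¹ * h₀⁻¹, hmemC c⟩
    have hf : Function.Injective f := by
      intro c d hcd
      have h2 : (c : Γ) * h₀ * (c : Γ)⁻¹ * h₀⁻¹ = (d : Γ) * h₀ * (d : Γ)⁻¹ * h₀⁻¹ :=
        congrArg Subtype.val hcd
      have h3 : (c : Γ) * h₀ * (c : Γ)⁻¹ = (d : Γ) * h₀ * (d : Γ)⁻¹ := mul_right_cancel h2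
      have h4 : h₀⁻¹ * ((d : Γ)⁻¹ * c) * h₀ = (d : Γ)⁻¹ * c := by
        calc h₀⁻¹ * ((d : Γ)⁻¹ * c) * h₀ = h₀⁻¹ * (d : Γ)⁻¹ * ((c : Γ) * h₀ * (c : Γ)⁻¹) * c := by
              group
          _ = h₀⁻¹ * (d : Γ)⁻¹ * ((d : Γ) * h₀ * (d : Γ)⁻¹) * c := by rw [h3]
          _ = _ := by group
      have h5 := hs.free (mul_mem (inv_mem d.2) c.2) hh₀ hne h4
      apply Subtype.ext
      exact (inv_mul_eq_one.1 h5).symm
    obtain ⟨c₁, hc₁⟩ := (Finite.injective_iff_surjective.1 hf) ⟨c₀, hc₀⟩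
    have hiff : ∀ c : C, (c : Γ)⁻¹ * g * c ∈ H ↔ c = c₁ := by
      intro c
      have e1 : (c : Γ)⁻¹ * g * c * h₀⁻¹ = (c : Γ)⁻¹ * (c₀ * (h₀ * (c : Γ) * h₀⁻¹)) := by
        rw [← hg]
        group
      have e2 : (c : Γ)⁻¹ * (c₀ * (h₀ * (c : Γ) * h₀⁻¹)) ∈ C :=
        mul_mem (inv_mem c.2) (mul_mem hc₀ (hs.normal.conj_mem _ c.2 h₀))
      constructor
      · intro h2
        have h3 : (c : Γ)⁻¹ * (c₀ * (h₀ * (c : Γ) * h₀⁻¹)) = 1 := by
          refine hs.inter e2 ?_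
          rw [← e1]
          exact mul_mem h2 (inv_mem hh₀)
        apply hf
        rw [hc₁]
        apply Subtype.ext
        change (c : Γ) * h₀ * (c : Γ)⁻¹ * h₀⁻¹ = c₀
        have h4 : (c₀ * (h₀ * (c : Γ) * h₀⁻¹)) = c := (inv_mul_eq_one.1 h3).symm
        calc (c : Γ) * h₀ * (c : Γ)⁻¹ * h₀⁻¹ =
            (c₀ * (h₀ * (c : Γ) * h₀⁻¹)) * h₀ * (c : Γ)⁻¹ * h₀⁻¹ := by rw [h4]
          _ = c₀ := by group
      · rintro rfl
        have h4 : (c : Γ) * h₀ * (c : Γ)⁻¹ * h₀⁻¹ = c₀ := congrArg Subtype.val hc₁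
        have h5 : (c : Γ)⁻¹ * g * c = h₀ := by
          rw [← hg, ← h4]
          group
        rw [h5]
        exact hh₀
    rw [Finset.sum_congr rfl fun c _ => by rw [if_congr (hiff c) rfl rfl],
      Finset.sum_ite_eq' Finset.univ c₁, if_pos (Finset.mem_univ _)]

variable {E : Type} [Field E] [CharZero E]

omit hs in
lemma ind_top (g : Γ) : ind (⊤ : Subgroup Γ) (1 : _ →* Eˣ) g = 1 := by
  have e : ∀ x : Γ, ext (⊤ : Subgroup Γ) (1 : _ →* Eˣ) x = 1 := by
    intro x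
    unfold ext
    rw [dif_pos (Subgroup.mem_top x), MonoidHom.one_apply, Units.val_one]
  unfold ind
  rw [Finset.sum_congr rfl fun x _ => e _, Finset.sum_const, nsmul_eq_mul, mul_one,
    Finset.card_univ, ← Nat.card_eq_fintype_card, Subgroup.card_top]
  exact inv_mul_cancel₀ (Nat.cast_ne_zero.2 Nat.card_pos.ne')

lemma ind_H (g : Γ) : ind H (1 : _ →* Eˣ) g =
    if g = 1 then (Nat.card C : E) else if g ∈ C then 0 else 1 := by
  have h1 : ∀ x : Γ, ext H (1 : _ →* Eˣ) x = if x ∈ H then 1 else 0 := by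
    intro x
    unfold ext
    split_ifs <;> simp
  have hHne : (Nat.card H : E) ≠ 0 := Nat.cast_ne_zero.2 Nat.card_pos.ne'
  have h2 : ∑ x : Γ, ext H (1 : _ →* Eˣ) (x⁻¹ * g * x) =
      (Nat.card H : E) * ((∑ c : C, if (c : Γ)⁻¹ * g * c ∈ H then 1 else 0 : ℕ) : E) := by
    rw [← (Equiv.ofBijective _ hs.compl).sum_comp, Fintype.sum_prod_type]
    rw [Nat.cast_sum, Finset.mul_sum]
    refine Finset.sum_congr rfl fun c _ => ?_
    rw [Nat.card_eq_fintype_card, ← nsmul_eq_mul, ← Finset.card_univ, ← Finset.sum_const]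
    refine Finset.sum_congr rfl fun h _ => ?_
    rw [h1]
    change (if ((c : Γ) * h)⁻¹ * g * (c * h) ∈ H then (1 : E) else 0) = _
    have e : ((c : Γ) * h)⁻¹ * g * (c * h) = (h : Γ)⁻¹ * ((c : Γ)⁻¹ * g * c) * h := by group
    have e2 : ((c : Γ) * h)⁻¹ * g * (c * h) ∈ H ↔ (c : Γ)⁻¹ * g * c ∈ H := by
      rw [e]
      constructor
      · intro h3
        have := mul_mem (mul_mem h.2 h3) (inv_mem h.2)
        have e3 : (h : Γ) * ((h : Γ)⁻¹ * ((c : Γ)⁻¹ * g * c) * h) * (h : Γ)⁻¹ =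
          (c : Γ)⁻¹ * g * c := by group
        rwa [e3] at this
      · intro h3
        exact mul_mem (mul_mem (inv_mem h.2) h3) h.2
    rw [if_congr e2 rfl rfl]
    split_ifs <;> simp
  unfold ind
  rw [h2, ← mul_assoc, inv_mul_cancel₀ hHne, one_mul, hs.count]
  split_ifs <;> simp

lemma sum_conj (F : Γ → E) (g : Γ) (hg : g ∈ C) : ∑ x : Γ, F (x⁻¹ * g * x) =
    (Nat.card C : E) * ∑ h : H, F ((h : Γ)⁻¹ * g * h) := by
  rw [← (Equiv.ofBijective _ hs.compl.symm).sum_comp, Fintype.sum_prod_type, Finset.mul_sum]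
  refine Finset.sum_congr rfl fun h _ => ?_
  rw [Nat.card_eq_fintype_card, ← nsmul_eq_mul, ← Finset.card_univ, ← Finset.sum_const]
  refine Finset.sum_congr rfl fun c _ => ?_
  change F (((h : Γ) * c)⁻¹ * g * (h * c)) = _
  have hm : (h : Γ)⁻¹ * g * h ∈ C := by
    have := hs.normal.conj_mem g hg (h : Γ)⁻¹
    rwa [inv_inv] at this
  congr 1
  calc ((h : Γ) * c)⁻¹ * g * (h * c) = (c : Γ)⁻¹ * (((h : Γ)⁻¹ * g * h) * c) := by group
    _ = (c : Γ)⁻¹ * (c * ((h : Γ)⁻¹ * g * h)) := by rw [hs.comm _ hm c c.2]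
    _ = _ := by group

/-- **The induced characters are integral combinations of permutation characters.** -/
theorem ind_eq (U : Subgroup Γ) (hU : U ≤ C) (χ : U →* Eˣ) (hχ : χ ≠ 1) (g : Γ) :
    ind U χ g = ((U.relIndex C : ℕ) : E) * (ind H (1 : _ →* Eˣ) g - ind ⊤ (1 : _ →* Eˣ) g) := by
  have hUne : (Nat.card U : E) ≠ 0 := Nat.cast_ne_zero.2 Nat.card_pos.ne'
  have hidx : (Nat.card C : E) = (Nat.card U : E) * ((U.relIndex C : ℕ) : E) := by
    rw [← Nat.cast_mul]
    congr 1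
    have := Subgroup.card_mul_index (U.subgroupOf C)
    rw [← this, Subgroup.relIndex, Nat.card_congr (Subgroup.subgroupOfEquivOfLe hU).toEquiv]
  have hsum : ∑ u : U, (χ u : E) = 0 := by
    have := sum_hom_units ((Units.coeHom E).comp χ)
    rw [if_neg] at this
    · simpa using this
    · intro h
      apply hχ
      ext u
      have := DFunLike.congr_fun h u
      simpa using this
  have hsumC : ∑ c : C, ext U χ (c : Γ) = 0 := by
    rw [← hsum]
    have e1 : ∀ c : C, ext U χ (c : Γ) = if hc : (c : Γ) ∈ U then (χ ⟨c, hc⟩ : E) else 0 :=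
      fun c => rfl
    rw [← Finset.sum_subset (Finset.subset_univ
      (Finset.univ.map ⟨Subgroup.inclusion hU, Subgroup.inclusion_injective hU⟩))]
    · rw [Finset.sum_map]
      refine Finset.sum_congr rfl fun u _ => ?_
      rw [e1]
      change (if hc : (u : Γ) ∈ U then (χ ⟨u, hc⟩ : E) else 0) = _
      rw [dif_pos u.2]
    · intro c _ hc
      rw [e1, dif_neg]
      intro h
      apply hc
      rw [Finset.mem_map]
      exact ⟨⟨c, h⟩, Finset.mem_univ _, Subtype.ext rfl⟩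
  rw [hs.ind_H, ind_top]
  by_cases h1 : g = 1
  · rw [if_pos h1, h1]
    unfold ind
    have e : ∀ x : Γ, ext U χ (x⁻¹ * 1 * x) = 1 := by
      intro x
      rw [mul_one, inv_mul_cancel]
      unfold ext
      rw [dif_pos (one_mem U)]
      have : (⟨1, one_mem U⟩ : U) = 1 := rfl
      rw [this, map_one, Units.val_one]
    rw [Finset.sum_congr rfl fun x _ => e x, Finset.sum_const, nsmul_eq_mul, mul_one,
      Finset.card_univ, ← Nat.card_eq_fintype_card, ← hs.compl.card_mul_card, Nat.cast_mul, hidx]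
    have h2 : (Nat.card H : E) = Nat.card C - 1 := by
      rw [← hs.card]
      push_cast
      ring
    rw [h2, hidx]
    field_simp
  rw [if_neg h1]
  by_cases hC : g ∈ C
  · rw [if_pos hC]
    unfold ind
    rw [hs.sum_conj _ g hC]
    have e : ∑ h : H, ext U χ ((h : Γ)⁻¹ * g * h) = -1 := by
      have e1 : ∑ h : H, ext U χ ((h : Γ)⁻¹ * g * h) =
          ∑ c : {c : C // c ≠ 1}, ext U χ ((c : C) : Γ) :=
        Fintype.sum_bijective _ (hs.cj_bij g hC h1) _ _ fun h => rfl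
      rw [e1]
      have e2 : ∑ c ∈ Finset.univ.erase (1 : C), ext U χ (c : Γ) =
          ∑ c : {c : C // c ≠ 1}, ext U χ ((c : C) : Γ) :=
        Finset.sum_subtype _ (fun c => by simp) _
      rw [← e2]
      have e3 := Finset.add_sum_erase Finset.univ (fun c : C => ext U χ (c : Γ))
        (Finset.mem_univ (1 : C))
      rw [hsumC] at e3
      have e4 : ext U χ (((1 : C) : C) : Γ) = 1 := by
        unfold ext
        rw [dif_pos (by simpa using one_mem U)]
        have : (⟨((1 : C) : Γ), by simpa using one_mem U⟩ : U) = 1 := rfl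
        rw [this, map_one, Units.val_one]
      simp only [e4] at e3
      linear_combination e3
    rw [e, hidx]
    field_simp
    ring
  · rw [if_neg hC]
    unfold ind
    have e : ∀ x : Γ, ext U χ (x⁻¹ * g * x) = 0 := by
      intro x
      unfold ext
      rw [dif_neg]
      intro h2
      apply hC
      have h3 := hs.normal.conj_mem _ (hU h2) x
      have e5 : x * (x⁻¹ * g * x) * x⁻¹ = g := by group
      rwa [e5] at h3
    rw [Finset.sum_congr rfl fun x _ => e x, Finset.sum_const_zero]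
    ring

end SharplyTwo

end Pool.Agent.V8H87.EB
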