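import Pool.Agent.V8H87.EB.Close

/-!
# Number fields
-/

set_option autoImplicit false

open scoped Classical

namespace Pool.Agent.V8H87.EB

open Module NumberField

/-- `V⁺` for the number field `N` and the integer `w`. The elements `(a_τ)` of `⨁ ℝ(w-1)` are
written as `a_τ = i^{w-1} α_τ` with real numbers `α_τ`; the condition
`a_τ = (-1)^{w-1} \bar a_{\bar τ}`, that is, invariance under `(a_τ) ↦ ((-1)^{w-1} a_{\bar τ})`,
becomes `α_{\bar τ} = (-1)^{w-1} α_τ`. -/
def Vplus (N : Type) [Field N] [NumberField N] (w : ℕ) : Submodule ℝ ((N →+* ℂ) → ℝ) where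
  carrier := {α | ∀ τ, α (ComplexEmbedding.conjugate τ) = (-1) ^ (w - 1) * α τ}
  add_mem' := by
    intro α β hα hβ τ
    rw [Pi.add_apply, Pi.add_apply, hα τ, hβ τ, mul_add]
  zero_mem' := by
    intro τ
    simp
  smul_mem' := by
    intro c α hα τ
    rw [Pi.smul_apply, Pi.smul_apply, hα τ, smul_eq_mul, smul_eq_mul]
    ring

/-- `B⁺ = (⨁_τ ℚ(w-1))⁺`, `ℚ(w-1) = ℚ (2 π i)^{w-1}`, in the same notation. -/
def Bplus (N : Type) [Field N] [NumberField N] (w : ℕ) : Submodule ℚ ((N →+* ℂ) → ℝ) where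
  carrier := {α | α ∈ Vplus N w ∧ ∀ τ, ∃ q : ℚ, α τ = q * (2 * Real.pi) ^ (w - 1)}
  add_mem' := by
    rintro α β ⟨hα, hα'⟩ ⟨hβ, hβ'⟩
    refine ⟨add_mem hα hβ, fun τ => ?_⟩
    obtain ⟨q, hq⟩ := hα' τ
    obtain ⟨r, hr⟩ := hβ' τ
    exact ⟨q + r, by rw [Pi.add_apply, hq, hr]; push_cast; ring⟩
  zero_mem' := ⟨zero_mem _, fun τ => ⟨0, by simp⟩⟩
  smul_mem' := by
    rintro c α ⟨hα, hα'⟩
    refine ⟨?_, fun τ => ?_⟩
    · have e : c • α = (c : ℝ) • α := by
        funext τ
        rw [Pi.smul_apply, Pi.smul_apply, Rat.smul_def, smul_eq_mul]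
      rw [e]
      exact Submodule.smul_mem _ _ hα
    · obtain ⟨q, hq⟩ := hα' τ
      exact ⟨c * q, by rw [Pi.smul_apply, hq, Rat.smul_def]; push_cast; ring⟩

variable {k N : Type} [Field k] [Field N] [NumberField k] [NumberField N] [Algebra k N]

/-- The right action of `Γ = Gal(N/k)` on the embeddings of `N`: `τ ↦ τ γ`. -/
def right (γ : N ≃ₐ[k] N) (τ : N →+* ℂ) : N →+* ℂ := τ.comp ((γ : N ≃ₐ[k] N) : N →+* N)

omit [NumberField k] [NumberField N] in
lemma right_one (τ : N →+* ℂ) : right (1 : N ≃ₐ[k] N) τ = τ := by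
  ext x
  rfl

omit [NumberField k] [NumberField N] in
lemma right_mul (γ γ' : N ≃ₐ[k] N) (τ : N →+* ℂ) : right (γ * γ') τ = right γ' (right γ τ) := by
  ext x
  rfl

omit [NumberField k] [NumberField N] in
lemma right_conj (γ : N ≃ₐ[k] N) (τ : N →+* ℂ) :
    right γ (ComplexEmbedding.conjugate τ) = ComplexEmbedding.conjugate (right γ τ) := by
  ext x
  rfl

omit [NumberField k] in
lemma Vplus_stable (w : ℕ) (γ : N ≃ₐ[k] N) {α : (N →+* ℂ) → ℝ} (hα : α ∈ Vplus N w) :
    act right γ α ∈ Vplus N w := by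
  intro τ
  change α (right γ (ComplexEmbedding.conjugate τ)) = _ * α (right γ τ)
  rw [right_conj]
  exact hα _

omit [NumberField k] in
lemma Bplus_stable (w : ℕ) (γ : N ≃ₐ[k] N) : ∀ α ∈ Bplus N w, act right γ α ∈ Bplus N w := by
  rintro α ⟨hα, hα'⟩
  exact ⟨Vplus_stable w γ hα, fun τ => hα' _⟩

/-- rational vectors which are independent over `ℚ` are independent over `ℝ` -/
lemma indep_of_rat {S : Type} {d : ℕ} (g : Fin d → S → ℚ) (hg : LinearIndependent ℚ g) :
    LinearIndependent ℝ (fun i => fun τ => ((g i τ : ℚ) : ℝ)) := by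
  rw [Fintype.linearIndependent_iff]
  intro r hr
  set F : Submodule ℚ ℝ := Submodule.span ℚ (Set.range r) with hF
  have : FiniteDimensional ℚ F := FiniteDimensional.span_of_finite ℚ (Set.finite_range _)
  let β : Basis (Fin (finrank ℚ F)) ℚ F := Module.finBasis ℚ F
  have hmem : ∀ i, r i ∈ F := fun i => Submodule.subset_span ⟨i, rfl⟩
  have hexp : ∀ i, r i = ∑ j, ((β.repr ⟨r i, hmem i⟩ j : ℚ) : ℝ) * (β j : ℝ) := by
    intro i
    have h1 := congrArg (Subtype.val) (β.sum_repr ⟨r i, hmem i⟩)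
    rw [AddSubmonoidClass.coe_finsetSum] at h1
    refine h1.symm.trans (Finset.sum_congr rfl fun j _ => ?_)
    rw [Submodule.coe_smul, Rat.smul_def]
  have hind : ∀ q : Fin (finrank ℚ F) → ℚ, ∑ j, (q j : ℝ) * (β j : ℝ) = 0 → ∀ j, q j = 0 := by
    intro q hq
    have h1 : ∑ j, q j • β j = 0 := by
      apply Subtype.ext
      rw [AddSubmonoidClass.coe_finsetSum, ZeroMemClass.coe_zero, ← hq]
      refine Finset.sum_congr rfl fun j _ => ?_
      rw [Submodule.coe_smul, Rat.smul_def]
    exact Fintype.linearIndependent_iff.1 β.linearIndependent q h1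
  have h0 : ∀ j τ, ∑ i, β.repr ⟨r i, hmem i⟩ j * g i τ = 0 := by
    intro j τ
    refine hind (fun j => ∑ i, β.repr ⟨r i, hmem i⟩ j * g i τ) ?_ j
    have h1 := congrFun hr τ
    rw [Finset.sum_apply] at h1
    simp only [Pi.smul_apply, smul_eq_mul, Pi.zero_apply] at h1
    rw [← h1]
    push_cast
    simp_rw [Finset.sum_mul]
    rw [Finset.sum_comm]
    refine Finset.sum_congr rfl fun i _ => ?_
    conv_rhs => rw [hexp i]
    rw [Finset.sum_mul]
    exact Finset.sum_congr rfl fun j _ => by ring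
  intro i
  rw [hexp i]
  refine Finset.sum_eq_zero fun j _ => ?_
  have h2 := Fintype.linearIndependent_iff.1 hg (fun i => β.repr ⟨r i, hmem i⟩ j) (by
    funext τ
    rw [Finset.sum_apply]
    simpa using h0 j τ) i
  rw [h2]
  simp

/-- `B⁺` is a rational structure of `V⁺` -/
theorem Bplus_form (N : Type) [Field N] [NumberField N] (w : ℕ) : IsForm (Vplus N w) (Bplus N w) := by
  have hpi : (2 * Real.pi) ^ (w - 1) ≠ 0 := by positivity
  constructor
  · apply le_antisymm
    · rw [Submodule.span_le]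
      exact fun α hα => hα.1
    · intro α hα
      have hε : ((-1 : ℝ) ^ (w - 1)) * (-1) ^ (w - 1) = 1 := by
        rw [← mul_pow]
        norm_num
      set u : (N →+* ℂ) → ((N →+* ℂ) → ℝ) := fun τ ρ =>
        (2 * Real.pi) ^ (w - 1) * ((if τ = ρ then 1 else 0) +
          (if ComplexEmbedding.conjugate τ = ρ then (-1) ^ (w - 1) else 0)) with hu
      have hcc : ∀ ρ : N →+* ℂ,
          ComplexEmbedding.conjugate (ComplexEmbedding.conjugate ρ) = ρ := by
        intro ρ
        ext x
        simp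
      have hci : ∀ τ ρ : N →+* ℂ, ComplexEmbedding.conjugate τ = ρ ↔
          τ = ComplexEmbedding.conjugate ρ := by
        intro τ ρ
        constructor
        · rintro rfl
          exact (hcc τ).symm
        · rintro rfl
          exact hcc ρ
      have e : α = ∑ τ, (α τ / 2 / (2 * Real.pi) ^ (w - 1)) • u τ := by
        funext ρ
        rw [Finset.sum_apply]
        have e1 : ∀ τ : N →+* ℂ, ((α τ / 2 / (2 * Real.pi) ^ (w - 1)) • u τ) ρ =
            (if τ = ρ then α τ / 2 else 0) +
              (if τ = ComplexEmbedding.conjugate ρ then α τ / 2 * (-1) ^ (w - 1) else 0) := by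
          intro τ
          rw [Pi.smul_apply, smul_eq_mul, hu]
          simp only [hci]
          split_ifs <;> field_simp <;> ring
        rw [Finset.sum_congr rfl fun τ _ => e1 τ, Finset.sum_add_distrib, Finset.sum_ite_eq',
          Finset.sum_ite_eq', if_pos (Finset.mem_univ _), if_pos (Finset.mem_univ _), hα ρ]
        calc α ρ = α ρ / 2 + α ρ / 2 * 1 := by ring
          _ = α ρ / 2 + α ρ / 2 * (((-1 : ℝ) ^ (w - 1)) * (-1) ^ (w - 1)) := by rw [hε]
          _ = _ := by ring
      rw [e]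
      refine Submodule.sum_mem _ fun τ _ => Submodule.smul_mem _ _ (Submodule.subset_span ?_)
      constructor
      · intro ρ
        simp only [hu, hci, hcc]
        have h7 : (τ = ComplexEmbedding.conjugate ρ) = (ComplexEmbedding.conjugate τ = ρ) :=
          propext (hci τ ρ).symm
        calc (2 * Real.pi) ^ (w - 1) * ((if τ = ComplexEmbedding.conjugate ρ then 1 else 0) +
              (if τ = ρ then (-1 : ℝ) ^ (w - 1) else 0)) =
            (2 * Real.pi) ^ (w - 1) * ((if τ = ComplexEmbedding.conjugate ρ then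
              ((-1 : ℝ) ^ (w - 1)) * (-1) ^ (w - 1) else 0) +
              (if τ = ρ then (-1 : ℝ) ^ (w - 1) else 0)) := by rw [hε]
          _ = _ := by split_ifs <;> ring
      · intro ρ
        refine ⟨(if τ = ρ then 1 else 0) +
          (if ComplexEmbedding.conjugate τ = ρ then (-1) ^ (w - 1) else 0), ?_⟩
        simp only [hu]
        split_ifs <;> push_cast <;> ring
  · intro d f hf hind
    choose g hg using fun i => (hf i).2
    have h1 : LinearIndependent ℚ g := by
      rw [Fintype.linearIndependent_iff] at hind ⊢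
      intro c hc
      apply hind c
      funext τ
      have h2 := congrFun hc τ
      rw [Finset.sum_apply] at h2 ⊢
      simp only [Pi.smul_apply, smul_eq_mul, Pi.zero_apply] at h2 ⊢
      have e : ∀ i, c i • f i τ = ((c i * g i τ : ℚ) : ℝ) * (2 * Real.pi) ^ (w - 1) := by
        intro i
        rw [hg i τ, Rat.smul_def]
        push_cast
        ring
      rw [Finset.sum_congr rfl fun i _ => e i, ← Finset.sum_mul, ← Rat.cast_sum, h2]
      simp
    have h3 := indep_of_rat g h1
    rw [Fintype.linearIndependent_iff] at h3 ⊢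
    intro c hc
    apply h3 c
    funext τ
    have h2 := congrFun hc τ
    rw [Finset.sum_apply] at h2 ⊢
    simp only [Pi.smul_apply, smul_eq_mul, Pi.zero_apply] at h2 ⊢
    have e : ∀ i, c i * f i τ = (c i * ((g i τ : ℚ) : ℝ)) * (2 * Real.pi) ^ (w - 1) := by
      intro i
      rw [hg i τ]
      ring
    rw [Finset.sum_congr rfl fun i _ => e i, ← Finset.sum_mul] at h2
    exact (mul_eq_zero.1 h2).resolve_right hpi

end Pool.Agent.V8H87.EB
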