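import Pool.Agent.V8H87.EB.NF

/-!
# The data given by the theorems of Borel and Artin, and Q1
-/

set_option autoImplicit false

open scoped Classical

namespace Pool.Agent.V8H87.EB

open Module NumberField

section General

variable {S : Type} [Fintype S] {Γ : Type} [Group Γ] [Fintype Γ] {R : Γ → S → S}
  {V : Submodule ℝ (S → ℝ)} {H B : Submodule ℚ (S → ℝ)}

omit [Fintype Γ] in
lemma cinv_one {E : Type} [Field E] (U : Subgroup Γ) (σ : E →+* ℂ) :
    cinv σ (1 : U →* Eˣ) = 1 := by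
  ext u
  simp [cinv]

/-- the trivial characters with values in any field of coefficients -/
theorem comp_one (L : (U : Subgroup Γ) → (U →* ℂˣ) → ℂ) (hR1 : ∀ τ, R 1 τ = τ)
    (hR : ∀ γ γ' τ, R (γ * γ') τ = R γ' (R γ τ)) (hVH : IsForm V H) (hVB : IsForm V B)
    (hH : ∀ γ, ∀ α ∈ H, act R γ α ∈ H) (hB : ∀ γ, ∀ α ∈ B, act R γ α ∈ B)
    (hBo : ∀ U : Subgroup Γ, Comp R ℚ U 1 hH hB L)
    (E : Type) [Field E] [CharZero E] (U : Subgroup Γ) :
    Comp R E U 1 hH hB L := by
  have h := comp_map L hR1 hR hVH hVB hH hB (algebraMap ℚ E) (hBo U)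
  have e : (Units.map ((algebraMap ℚ E : ℚ →+* E) : ℚ →* E)).comp (1 : U →* ℚˣ) = 1 := by
    ext u
    simp
  rwa [e] at h

/-- `Ind χ` is an integral combination of permutation characters -/
theorem comp_perm (A : ArtinValues Γ) (hR1 : ∀ τ, R 1 τ = τ)
    (hR : ∀ γ γ' τ, R (γ * γ') τ = R γ' (R γ τ)) (hVH : IsForm V H) (hVB : IsForm V B)
    (hH : ∀ γ, ∀ α ∈ H, act R γ α ∈ H) (hB : ∀ γ, ∀ α ∈ B, act R γ α ∈ B)
    (hBo : ∀ U : Subgroup Γ, Comp R ℚ U 1 hH hB A.L)
    (E : Type) [Field E] [CharZero E] {ι : Type} [Fintype ι] (W : ι → Subgroup Γ) (n : ι → ℤ)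
    (U : Subgroup Γ) (χ : U →* Eˣ) (hχ : ∀ g, ind U χ g = ∑ i, (n i : E) * ind (W i) 1 g) :
    Comp R E U χ hH hB A.L :=
  closure A hR1 hR hVH hVB hH hB E W (fun _ => 1) n
    (fun i => comp_one A.L hR1 hR hVH hVB hH hB hBo E (W i)) U χ hχ

/-- `Ind χ = Ind_{ker χ} 1 - Ind_U 1` for a quadratic character -/
lemma ind_quad {E : Type} [Field E] [CharZero E] (U : Subgroup Γ) (χ : U →* Eˣ)
    (h2 : ∀ u, χ u * χ u = 1) (h1 : χ ≠ 1) (g : Γ) :
    ind U χ g = ind (χ.ker.map U.subtype) (1 : _ →* Eˣ) g - ind U (1 : U →* Eˣ) g := by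
  have hval : ∀ u, (χ u : E) = 1 ∨ (χ u : E) = -1 := by
    intro u
    have h := congrArg (Units.val) (h2 u)
    rw [Units.val_mul, Units.val_one] at h
    exact mul_self_eq_one_iff.1 h
  have hmem : ∀ x : Γ, x ∈ χ.ker.map U.subtype ↔ ∃ hx : x ∈ U, χ ⟨x, hx⟩ = 1 := by
    intro x
    rw [Subgroup.mem_map]
    constructor
    · rintro ⟨u, hu, rfl⟩
      exact ⟨u.2, hu⟩
    · rintro ⟨hx, hu⟩
      exact ⟨⟨x, hx⟩, hu, rfl⟩
  have hUne : (Nat.card U : E) ≠ 0 := Nat.cast_ne_zero.2 Nat.card_pos.ne'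
  have hWne : (Nat.card (χ.ker.map U.subtype) : E) ≠ 0 := Nat.cast_ne_zero.2 Nat.card_pos.ne'
  have hcard : (Nat.card U : E) = 2 * Nat.card (χ.ker.map U.subtype) := by
    have hs : ∑ u : U, (χ u : E) = 0 := by
      have := sum_hom_units ((Units.coeHom E).comp χ)
      rw [if_neg] at this
      · simpa using this
      · intro h
        apply h1
        ext u
        have := DFunLike.congr_fun h u
        simpa using this
    have h3 : ∑ u : U, (1 + (χ u : E)) = (Nat.card U : E) := by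
      rw [Finset.sum_add_distrib, hs, add_zero]
      simp [Nat.card_eq_fintype_card]
    rw [← h3]
    have h4 : ∀ u : U, 1 + (χ u : E) = if u ∈ χ.ker then 2 else 0 := by
      intro u
      by_cases hu : u ∈ χ.ker
      · rw [if_pos hu, MonoidHom.mem_ker.1 hu]
        norm_num
      · rw [if_neg hu]
        rcases hval u with h | h
        · exact absurd (Units.ext h) hu
        · rw [h]
          ring
    rw [Finset.sum_congr rfl fun u _ => h4 u, Finset.sum_ite, Finset.sum_const_zero, add_zero,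
      Finset.sum_const, nsmul_eq_mul, mul_comm]
    congr 2
    rw [Nat.card_congr (χ.ker.equivMapOfInjective U.subtype U.subtype_injective).symm.toEquiv,
      Nat.card_eq_fintype_card, Fintype.card_subtype]
  have hx : ∀ x : Γ, (Nat.card U : E)⁻¹ * ext U χ x =
      (Nat.card (χ.ker.map U.subtype) : E)⁻¹ * ext (χ.ker.map U.subtype) (1 : _ →* Eˣ) x -
        (Nat.card U : E)⁻¹ * ext U (1 : U →* Eˣ) x := by
    intro x
    unfold ext
    by_cases hx : x ∈ U
    · rw [dif_pos hx, dif_pos hx]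
      rcases hval ⟨x, hx⟩ with h | h
      · rw [dif_pos ((hmem x).2 ⟨hx, Units.ext h⟩), h, hcard]
        simp only [MonoidHom.one_apply, Units.val_one]
        field_simp
        ring
      · rw [dif_neg, h]
        · simp
        · rintro h5
          obtain ⟨h6, h7⟩ := (hmem x).1 h5
          rw [h7, Units.val_one] at h
          norm_num [eq_neg_iff_add_eq_zero] at h
    · rw [dif_neg hx, dif_neg hx, dif_neg]
      · simp
      · intro h5
        exact hx ((hmem x).1 h5).1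
  unfold ind
  rw [Finset.mul_sum, Finset.mul_sum, Finset.mul_sum, ← Finset.sum_sub_distrib]
  exact Finset.sum_congr rfl fun x _ => hx _

/-- quadratic characters -/
theorem comp_quad (A : ArtinValues Γ) (hR1 : ∀ τ, R 1 τ = τ)
    (hR : ∀ γ γ' τ, R (γ * γ') τ = R γ' (R γ τ)) (hVH : IsForm V H) (hVB : IsForm V B)
    (hH : ∀ γ, ∀ α ∈ H, act R γ α ∈ H) (hB : ∀ γ, ∀ α ∈ B, act R γ α ∈ B)
    (hBo : ∀ U : Subgroup Γ, Comp R ℚ U 1 hH hB A.L)
    (E : Type) [Field E] [CharZero E] (U : Subgroup Γ) (χ : U →* Eˣ)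
    (h2 : ∀ u, χ u * χ u = 1) : Comp R E U χ hH hB A.L := by
  by_cases h1 : χ = 1
  · rw [h1]
    exact comp_one A.L hR1 hR hVH hVB hH hB hBo E U
  · refine comp_perm A hR1 hR hVH hVB hH hB hBo E (ι := Bool)
      (fun b => if b then χ.ker.map U.subtype else U) (fun b => if b then 1 else -1) U χ ?_
    intro g
    rw [ind_quad U χ h2 h1 g, Fintype.sum_bool]
    simp [sub_eq_add_neg]

end General

end Pool.Agent.V8H87.EB
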